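import Mathlib

/-!
The algebraic certificate for the constant `11/10`.
-/

namespace Pool.Agent.Lib.MP_d90615_co

/-- The Rayleigh difference at `α zzᵀ + y 11ᵀ` in the nine aggregated pattern counts. -/
def ray9 (α y T P1 Q1 Z1 X P2 Q2 Z2 Y : ℝ) : ℝ :=
  (T*(2 + 8*α + 8*y + 32*α*y) + Q1*(2 + 12*α + 12*y + 64*α*y) + X*(2 + 3*α + 11*y + 16*α*y)
      + Q2*(2 + 16*y) + Y*(2 + 16*y))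
    * (T*(2 + 8*α + 8*y + 32*α*y) + P1*(2 + 12*α + 12*y + 64*α*y) + X*(2 + 3*α + 11*y + 16*α*y)
      + P2*(2 + 16*y) + Y*(2 + 16*y))
  - (T*(1 + 4*α + 4*y + 16*α*y) + (P1 + Q1)*(1 + 6*α + 6*y + 32*α*y)
      + Z1*(1 + 8*α + 8*y + 64*α*y) + X*(1 + 2*α + 6*y + 12*α*y)
      + (P2 + Q2)*(1 + 2*α + 10*y + 16*α*y) + Z2*(1 + 16*y) + Y*(1 + 8*y))
    * (T*(4 + 16*α + 16*y + 64*α*y) + X*(3 + 16*y))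

set_option maxRecDepth 100000 in
lemma cert9 (T P1 Q1 Z1 X P2 Q2 Z2 Y : ℝ) (hT : 0 ≤ T) (hP1 : 0 ≤ P1) (hQ1 : 0 ≤ Q1)
    (hZ1 : 0 ≤ Z1) (hX : 0 ≤ X) (hP2 : 0 ≤ P2) (hQ2 : 0 ≤ Q2) (hZ2 : 0 ≤ Z2) (hY : 0 ≤ Y)
    (K1 : 0 ≤ P2*(T + Q1) + Z2*(2*T + 2*Q1 + X) - (P1 + Z1)*(X + 2*Q2 + 2*Y) - P2*(Q2 + Y))
    (K2 : 0 ≤ Q2*(T + P1) + Z2*(2*T + 2*P1 + X) - (Q1 + Z1)*(X + 2*P2 + 2*Y) - Q2*(P2 + Y))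
    (M1 : 0 ≤ T*(P2 + Y) - P1*X) (M2 : 0 ≤ T*(Q2 + Y) - Q1*X)
    (M3 : 0 ≤ T*(P2 + Q2 + 2*Z1 + Y) - (P1 + Q1)*X - 2*P1*Q1)
    (R0 : 0 ≤ ray9 (1/20) (-7/20) T P1 Q1 Z1 X P2 Q2 Z2 Y)
    (R1 : 0 ≤ ray9 (1/20) 2 T P1 Q1 Z1 X P2 Q2 Z2 Y) :
    0 ≤ (T + P1 + Q1 + Z1 + X + P2 + Q2 + Z2 + Y) *
      (11*(T + X + Y + Q1 + Q2)*(T + X + Y + P1 + P2)
        - 10*(T + P1 + Q1 + Z1 + X + P2 + Q2 + Z2 + Y)*(T + X)) := by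
  obtain ⟨k1, e1⟩ : ∃ k, k = P2*(T + Q1) + Z2*(2*T + 2*Q1 + X) - (P1 + Z1)*(X + 2*Q2 + 2*Y)
      - P2*(Q2 + Y) := ⟨_, rfl⟩
  obtain ⟨k2, e2⟩ : ∃ k, k = Q2*(T + P1) + Z2*(2*T + 2*P1 + X) - (Q1 + Z1)*(X + 2*P2 + 2*Y)
      - Q2*(P2 + Y) := ⟨_, rfl⟩
  obtain ⟨m1, e3⟩ : ∃ k, k = T*(P2 + Y) - P1*X := ⟨_, rfl⟩
  obtain ⟨m2, e4⟩ : ∃ k, k = T*(Q2 + Y) - Q1*X := ⟨_, rfl⟩
  obtain ⟨m3, e5⟩ : ∃ k, k = T*(P2 + Q2 + 2*Z1 + Y) - (P1 + Q1)*X - 2*P1*Q1 := ⟨_, rfl⟩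
  obtain ⟨r0, e6⟩ : ∃ k, k = ray9 (1/20) (-7/20) T P1 Q1 Z1 X P2 Q2 Z2 Y := ⟨_, rfl⟩
  obtain ⟨r1, e7⟩ : ∃ k, k = ray9 (1/20) 2 T P1 Q1 Z1 X P2 Q2 Z2 Y := ⟨_, rfl⟩
  rw [← e1] at K1
  rw [← e2] at K2
  rw [← e3] at M1
  rw [← e4] at M2
  rw [← e5] at M3
  rw [← e6] at R0
  rw [← e7] at R1
  have id : (T + P1 + Q1 + Z1 + X + P2 + Q2 + Z2 + Y) *
      (11*(T + X + Y + Q1 + Q2)*(T + X + Y + P1 + P2)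
        - 10*(T + P1 + Q1 + Z1 + X + P2 + Q2 + Z2 + Y)*(T + X)) =
      25/18*P1*k1 + 7/9*P2*k1 + 4/3*T*k1 + 31/18*X*k1 + 7/9*Y*k1 + 25/18*Q1*k2 + 7/9*Q2*k2
       + 4/3*T*k2 + 31/18*X*k2 + 7/9*Y*k2 + 1/18*P1*m1 + 5/9*Z1*m1 + 1/18*Q1*m2 + 5/9*Z1*m2
       + 5/9*P1*m3 + 4/9*P2*m3 + 5/9*Q1*m3 + 4/9*Q2*m3 + 5/6*T*m3 + 2/9*X*m3 + 7/6*Z1*m3
       + 17/9*Z2*m3 + 7/18*P1*r0 + 1/3*P2*r0 + 7/18*Q1*r0 + 1/3*Q2*r0 + 11/18*T*r0 + 7/6*X*r0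
       + 11/18*Y*r0 + 4/9*Z2*r0 + 73/9000*P1*r1 + 1/180*P2*r1 + 73/9000*Q1*r1 + 1/180*Q2*r1
       + 83/9000*T*r1 + 1/600*Y*r1 + 109/9000*Z1*r1 + 13/3000*Z2*r1 + 1*(T*T*T) + 2*(T*T*P1)
       + 2*(T*T*Q1) + 16613/9375*(T*T*Z1) + 11147/6250*(T*T*X) + 29407/9375*(T*T*P2)
       + 29407/9375*(T*T*Q2) + 2632/625*(T*T*Z2) + 12307/3750*(T*T*Y) + 1*(T*P1*P1)
       + 4609/45000*(T*P1*Q1) + 3094/28125*(T*P1*Z1) + 1340933/900000*(T*P1*X)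
       + 49769/18750*(T*P1*P2) + 11339/112500*(T*P1*Q2) + 3113/5625*(T*P1*Z2)
       + 54527/22500*(T*P1*Y) + 1*(T*Q1*Q1) + 3094/28125*(T*Q1*Z1) + 1340933/900000*(T*Q1*X)
       + 11339/112500*(T*Q1*P2) + 49769/18750*(T*Q1*Q2) + 3113/5625*(T*Q1*Z2)
       + 54527/22500*(T*Q1*Y) + 1114/9375*(T*Z1*Z1) + 10537/75000*(T*Z1*X)
       + 38323/28125*(T*Z1*P2) + 38323/28125*(T*Z1*Q2) + 2632/28125*(T*Z1*Z2)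
       + 1871/2250*(T*Z1*Y) + 546313/720000*(T*X*X) + 110573/45000*(T*X*P2)
       + 110573/45000*(T*X*Q2) + 2529/25000*(T*X*Z2) + 55099/11250*(T*X*Y)
       + 9613/5625*(T*P2*P2) + 667/11250*(T*P2*Q2) + 13361/56250*(T*P2*Z2)
       + 9794/5625*(T*P2*Y) + 9613/5625*(T*Q2*Q2) + 13361/56250*(T*Q2*Z2) + 9794/5625*(T*Q2*Y)
       + 193/1875*(T*Z2*Z2) + 103/1875*(T*Z2*Y) + 2437/2250*(T*Y*Y) + 18043/45000*(P1*P1*Q1)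
       + 13043/180000*(P1*P1*X) + 3911/4500*(P1*P1*Q2) + 3911/4500*(P1*P1*Y)
       + 18043/45000*(P1*Q1*Q1) + 433/3000*(P1*Q1*Z1) + 6211/90000*(P1*Q1*X)
       + 47/625*(P1*Q1*P2) + 47/625*(P1*Q1*Q2) + 54677/45000*(P1*Q1*Z2)
       + 38089/45000*(P1*Q1*Y) + 1421/12000*(P1*Z1*X) + 851/4500*(P1*Z1*Q2)
       + 851/4500*(P1*Z1*Y) + 120139/720000*(P1*X*X) + 11219/30000*(P1*X*P2)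
       + 80497/90000*(P1*X*Q2) + 13177/180000*(P1*X*Z2) + 126823/60000*(P1*X*Y)
       + 773/750*(P1*P2*Q2) + 773/750*(P1*P2*Y) + 1631/2250*(P1*Q2*Q2) + 1037/4500*(P1*Q2*Z2)
       + 201/100*(P1*Q2*Y) + 1037/4500*(P1*Z2*Y) + 5783/4500*(P1*Y*Y) + 13043/180000*(Q1*Q1*X)
       + 3911/4500*(Q1*Q1*P2) + 3911/4500*(Q1*Q1*Y) + 1421/12000*(Q1*Z1*X)
       + 851/4500*(Q1*Z1*P2) + 851/4500*(Q1*Z1*Y) + 120139/720000*(Q1*X*X)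
       + 80497/90000*(Q1*X*P2) + 11219/30000*(Q1*X*Q2) + 13177/180000*(Q1*X*Z2)
       + 126823/60000*(Q1*X*Y) + 1631/2250*(Q1*P2*P2) + 773/750*(Q1*P2*Q2)
       + 1037/4500*(Q1*P2*Z2) + 201/100*(Q1*P2*Y) + 773/750*(Q1*Q2*Y) + 1037/4500*(Q1*Z2*Y)
       + 5783/4500*(Q1*Y*Y) + 797/9000*(Z1*Z1*X) + 17227/144000*(Z1*X*X) + 1053/1000*(Z1*X*P2)
       + 1053/1000*(Z1*X*Q2) + 51/100*(Z1*X*Z2) + 5509/3000*(Z1*X*Y) + 83/750*(Z1*P2*Q2)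
       + 83/750*(Z1*P2*Y) + 83/750*(Z1*Q2*Y) + 83/750*(Z1*Y*Y) + 181/1875*(X*X*X)
       + 26083/40000*(X*X*P2) + 26083/40000*(X*X*Q2) + 331397/720000*(X*X*Z2)
       + 780349/720000*(X*X*Y) + 149/300*(X*P2*P2) + 143/450*(X*P2*Q2) + 1831/9000*(X*P2*Z2)
       + 6797/9000*(X*P2*Y) + 149/300*(X*Q2*Q2) + 1831/9000*(X*Q2*Z2) + 6797/9000*(X*Q2*Y)
       + 577/1800*(X*Z2*Z2) + 413/1000*(X*Z2*Y) + 38/375*(X*Y*Y) + 233/225*(P2*P2*Q2)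
       + 233/225*(P2*P2*Y) + 233/225*(P2*Q2*Q2) + 173/750*(P2*Q2*Z2) + 1451/450*(P2*Q2*Y)
       + 173/750*(P2*Z2*Y) + 197/90*(P2*Y*Y) + 233/225*(Q2*Q2*Y) + 173/750*(Q2*Z2*Y)
       + 197/90*(Q2*Y*Y) + 173/750*(Z2*Y*Y) + 173/150*(Y*Y*Y) := by
    rw [e1, e2, e3, e4, e5, e6, e7]
    unfold ray9
    ring
  rw [id]
  positivity

end Pool.Agent.Lib.MP_d90615_co
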