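import Pool.Agent.Lib.MP_d90615_co.Mg.G036
import Pool.Agent.Lib.MP_d90615_co.Cert9

/-!
The inequalities in the nine aggregated pattern counts.
-/

namespace Pool.Agent.Lib.MP_d90615_co

open Matrix Finset
open scoped Classical

variable {V E : Type*} (ends : E → Sym2 V) (S : Finset E)

/-- No two of `a, b, c, d` connected. -/
noncomputable def gT (a b c d : V) : ℝ :=
  xb ends S a b c d false false false false false false

lemma gT_nonneg (a b c d : V) : 0 ≤ gT ends S a b c d := by
  unfold gT
  exact xb_nonneg _ _ _ _ _ _ _ _ _ _ _ _

/-- Only `a, b` connected. -/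
noncomputable def gP1 (a b c d : V) : ℝ :=
  xb ends S a b c d true false false false false false

lemma gP1_nonneg (a b c d : V) : 0 ≤ gP1 ends S a b c d := by
  unfold gP1
  exact xb_nonneg _ _ _ _ _ _ _ _ _ _ _ _

/-- Only `c, d` connected. -/
noncomputable def gQ1 (a b c d : V) : ℝ :=
  xb ends S a b c d false false false false false true

lemma gQ1_nonneg (a b c d : V) : 0 ≤ gQ1 ends S a b c d := by
  unfold gQ1
  exact xb_nonneg _ _ _ _ _ _ _ _ _ _ _ _

/-- Pattern `ab | cd`. -/
noncomputable def gZ1 (a b c d : V) : ℝ :=
  xb ends S a b c d true false false false false true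

lemma gZ1_nonneg (a b c d : V) : 0 ≤ gZ1 ends S a b c d := by
  unfold gZ1
  exact xb_nonneg _ _ _ _ _ _ _ _ _ _ _ _

/-- Exactly one pair connected, and it is neither `ab` nor `cd`. -/
noncomputable def gX (a b c d : V) : ℝ :=
  xb ends S a b c d false true false false false false +
    xb ends S a b c d false false true false false false +
    xb ends S a b c d false false false true false false +
    xb ends S a b c d false false false false true false

lemma gX_nonneg (a b c d : V) : 0 ≤ gX ends S a b c d := by
  unfold gX
  exact add_nonneg (add_nonneg (add_nonneg (xb_nonneg _ _ _ _ _ _ _ _ _ _ _ _) (xb_nonneg _ _ _ _ _ _ _ _ _ _ _ _)) (xb_nonneg _ _ _ _ _ _ _ _ _ _ _ _)) (xb_nonneg _ _ _ _ _ _ _ _ _ _ _ _)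

/-- Patterns `abc | d` and `abd | c`. -/
noncomputable def gP2 (a b c d : V) : ℝ :=
  xb ends S a b c d true true false true false false +
    xb ends S a b c d true false true false true false

lemma gP2_nonneg (a b c d : V) : 0 ≤ gP2 ends S a b c d := by
  unfold gP2
  exact add_nonneg (xb_nonneg _ _ _ _ _ _ _ _ _ _ _ _) (xb_nonneg _ _ _ _ _ _ _ _ _ _ _ _)

/-- Patterns `acd | b` and `bcd | a`. -/
noncomputable def gQ2 (a b c d : V) : ℝ :=
  xb ends S a b c d false true true false false true +
    xb ends S a b c d false false false true true true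

lemma gQ2_nonneg (a b c d : V) : 0 ≤ gQ2 ends S a b c d := by
  unfold gQ2
  exact add_nonneg (xb_nonneg _ _ _ _ _ _ _ _ _ _ _ _) (xb_nonneg _ _ _ _ _ _ _ _ _ _ _ _)

/-- All four connected. -/
noncomputable def gZ2 (a b c d : V) : ℝ :=
  xb ends S a b c d true true true true true true

lemma gZ2_nonneg (a b c d : V) : 0 ≤ gZ2 ends S a b c d := by
  unfold gZ2
  exact xb_nonneg _ _ _ _ _ _ _ _ _ _ _ _

/-- Patterns `ac | bd` and `ad | bc`. -/
noncomputable def gY (a b c d : V) : ℝ :=
  xb ends S a b c d false true false false true false +
    xb ends S a b c d false false true true false false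

lemma gY_nonneg (a b c d : V) : 0 ≤ gY ends S a b c d := by
  unfold gY
  exact add_nonneg (xb_nonneg _ _ _ _ _ _ _ _ _ _ _ _) (xb_nonneg _ _ _ _ _ _ _ _ _ _ _ _)

lemma ray9_of (α y x_abcd x_abc x_abd x_abcd2 x_ab x_acd x_acbd x_ac x_adbc x_bcd x_bc x_ad x_bd x_cd x_e : ℝ)
    (h : (x_abcd * (1 + 16*y) + x_abc * (1 + 2*α + 10*y + 16*α*y + 2*0 + 16*y*0) + x_abd * (1 + 2*α + 10*y + 16*α*y + 2*0 + 16*y*0) + x_abcd2 * (1 + 8*α + 8*y + 64*α*y) + x_ab * (1 + 6*α + 6*y + 32*α*y + 2*0 + 12*α*0 + 12*y*0 + 64*α*y*0) + x_acd * (1 + 2*α + 10*y + 16*α*y + 2*0 + 16*y*0) + x_acbd * (1 + 8*y + 2*0 + 16*y*0 + 2*0 + 16*y*0) + x_ac * (1 + 2*α + 6*y + 12*α*y + 2*0 + 3*α*0 + 11*y*0 + 16*α*y*0 + 2*0 + 3*α*0 + 11*y*0 + 16*α*y*0 + 3*0*0 + 16*y*0*0) + x_adbc * (1 + 8*y + 2*0 + 16*y*0 + 2*0 + 16*y*0) + x_bcd * (1 + 2*α + 10*y + 16*α*y + 2*0 + 16*y*0) + x_bc * (1 + 2*α + 6*y + 12*α*y + 2*0 + 3*α*0 + 11*y*0 + 16*α*y*0 + 2*0 + 3*α*0 + 11*y*0 + 16*α*y*0 + 3*0*0 + 16*y*0*0) + x_ad * (1 + 2*α + 6*y + 12*α*y + 2*0 + 3*α*0 + 11*y*0 + 16*α*y*0 + 2*0 + 3*α*0 + 11*y*0 + 16*α*y*0 + 3*0*0 + 16*y*0*0) + x_bd * (1 + 2*α + 6*y +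 12*α*y + 2*0 + 3*α*0 + 11*y*0 + 16*α*y*0 + 2*0 + 3*α*0 + 11*y*0 + 16*α*y*0 + 3*0*0 + 16*y*0*0) + x_cd * (1 + 6*α + 6*y + 32*α*y + 2*0 + 12*α*0 + 12*y*0 + 64*α*y*0) + x_e * (1 + 4*α + 4*y + 16*α*y + 2*0 + 8*α*0 + 8*y*0 + 32*α*y*0 + 2*0 + 8*α*0 + 8*y*0 + 32*α*y*0 + 4*0*0 + 16*α*0*0 + 16*y*0*0 + 64*α*y*0*0)) * (x_abcd * (1 + 16*y) + x_abc * (1 + 2*α + 10*y + 16*α*y + 2*1 + 16*y*1) + x_abd * (1 + 2*α + 10*y + 16*α*y + 2*1 + 16*y*1) + x_abcd2 * (1 + 8*α + 8*y + 64*α*y) + x_ab * (1 + 6*α + 6*y + 32*α*y + 2*1 + 12*α*1 + 12*y*1 + 64*α*y*1) + x_acd * (1 + 2*α + 10*y + 16*α*y + 2*1 + 16*y*1) + x_acbd * (1 + 8*y + 2*1 + 16*y*1 + 2*1 + 16*y*1) + x_ac * (1 + 2*α + 6*y + 12*α*y + 2*1 + 3*α*1 + 11*y*1 + 16*α*y*1 + 2*1 + 3*α*1 + 11*y*1 + 16*α*y*1 + 3*1*1 + 16*y*1*1) + x_adbc * (1 + 8*y + 2*1 + 16*y*1 + 2*1 + 16*y*1) + x_bcd * (1 + 2*α + 10*y + 16*α*y + 2*1 + 16*y*1) + x_bc * (1 + 2*α + 6*y + 12*α*y + 2*1 + 3*α*1 + 11*y*1 + 16*α*y*1 + 2*1 + 3*α*1 + 11*y*1 + 16*α*y*1 + 3*1*1 + 16*y*1*1) + x_ad * (1 + 2*α + 6*y + 12*α*y + 2*1 + 3*α*1 + 11*y*1 + 16*α*y*1 + 2*1 + 3*α*1 + 11*y*1 + 16*α*y*1 + 3*1*1 + 16*y*1*1) +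 x_bd * (1 + 2*α + 6*y + 12*α*y + 2*1 + 3*α*1 + 11*y*1 + 16*α*y*1 + 2*1 + 3*α*1 + 11*y*1 + 16*α*y*1 + 3*1*1 + 16*y*1*1) + x_cd * (1 + 6*α + 6*y + 32*α*y + 2*1 + 12*α*1 + 12*y*1 + 64*α*y*1) + x_e * (1 + 4*α + 4*y + 16*α*y + 2*1 + 8*α*1 + 8*y*1 + 32*α*y*1 + 2*1 + 8*α*1 + 8*y*1 + 32*α*y*1 + 4*1*1 + 16*α*1*1 + 16*y*1*1 + 64*α*y*1*1)) ≤
      (x_abcd * (1 + 16*y) + x_abc * (1 + 2*α + 10*y + 16*α*y + 2*0 + 16*y*0) + x_abd * (1 + 2*α + 10*y + 16*α*y + 2*0 + 16*y*0) + x_abcd2 * (1 + 8*α + 8*y + 64*α*y) + x_ab * (1 + 6*α + 6*y + 32*α*y + 2*0 + 12*α*0 + 12*y*0 + 64*α*y*0) + x_acd * (1 + 2*α + 10*y + 16*α*y + 2*1 + 16*y*1) + x_acbd * (1 + 8*y + 2*1 + 16*y*1 + 2*0 + 16*y*0) + x_ac * (1 + 2*α + 6*y + 12*α*y + 2*1 + 3*α*1 + 11*y*1 + 16*α*y*1 + 2*0 + 3*α*0 + 11*y*0 + 16*α*y*0 + 3*1*0 + 16*y*1*0) + x_adbc * (1 + 8*y + 2*1 + 16*y*1 + 2*0 + 16*y*0) + x_bcd * (1 + 2*α + 10*y + 16*α*y + 2*1 + 16*y*1) + x_bc * (1 + 2*α + 6*y + 12*α*y + 2*1 + 3*α*1 + 11*y*1 + 16*α*y*1 + 2*0 + 3*α*0 + 11*y*0 + 16*α*y*0 + 3*1*0 + 16*y*1*0) + x_ad * (1 + 2*α + 6*y + 12*α*y + 2*1 + 3*α*1 + 11*y*1 + 16*α*y*1 + 2*0 + 3*α*0 + 11*y*0 + 16*α*y*0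 + 3*1*0 + 16*y*1*0) + x_bd * (1 + 2*α + 6*y + 12*α*y + 2*1 + 3*α*1 + 11*y*1 + 16*α*y*1 + 2*0 + 3*α*0 + 11*y*0 + 16*α*y*0 + 3*1*0 + 16*y*1*0) + x_cd * (1 + 6*α + 6*y + 32*α*y + 2*1 + 12*α*1 + 12*y*1 + 64*α*y*1) + x_e * (1 + 4*α + 4*y + 16*α*y + 2*1 + 8*α*1 + 8*y*1 + 32*α*y*1 + 2*0 + 8*α*0 + 8*y*0 + 32*α*y*0 + 4*1*0 + 16*α*1*0 + 16*y*1*0 + 64*α*y*1*0)) * (x_abcd * (1 + 16*y) + x_abc * (1 + 2*α + 10*y + 16*α*y + 2*1 + 16*y*1) + x_abd * (1 + 2*α + 10*y + 16*α*y + 2*1 + 16*y*1) + x_abcd2 * (1 + 8*α + 8*y + 64*α*y) + x_ab * (1 + 6*α + 6*y + 32*α*y + 2*1 + 12*α*1 + 12*y*1 + 64*α*y*1) + x_acd * (1 + 2*α + 10*y + 16*α*y + 2*0 + 16*y*0) + x_acbd * (1 + 8*y + 2*0 + 16*y*0 + 2*1 + 16*y*1) + x_ac * (1 + 2*α + 6*y + 12*α*y + 2*0 + 3*α*0 + 11*y*0 + 16*α*y*0 + 2*1 + 3*α*1 + 11*y*1 + 16*α*y*1 + 3*0*1 + 16*y*0*1) + x_adbc * (1 + 8*y + 2*0 + 16*y*0 + 2*1 + 16*y*1) + x_bcd * (1 + 2*α + 10*y + 16*α*y + 2*0 + 16*y*0) + x_bc * (1 + 2*α + 6*y + 12*α*y + 2*0 + 3*α*0 + 11*y*0 + 16*α*y*0 + 2*1 + 3*α*1 + 11*y*1 + 16*α*y*1 + 3*0*1 + 16*y*0*1) + x_ad * (1 + 2*α + 6*y + 12*α*y + 2*0 + 3*α*0 + 11*y*0 + 16*α*y*0 + 2*1 + 3*α*1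 + 11*y*1 + 16*α*y*1 + 3*0*1 + 16*y*0*1) + x_bd * (1 + 2*α + 6*y + 12*α*y + 2*0 + 3*α*0 + 11*y*0 + 16*α*y*0 + 2*1 + 3*α*1 + 11*y*1 + 16*α*y*1 + 3*0*1 + 16*y*0*1) + x_cd * (1 + 6*α + 6*y + 32*α*y + 2*0 + 12*α*0 + 12*y*0 + 64*α*y*0) + x_e * (1 + 4*α + 4*y + 16*α*y + 2*0 + 8*α*0 + 8*y*0 + 32*α*y*0 + 2*1 + 8*α*1 + 8*y*1 + 32*α*y*1 + 4*0*1 + 16*α*0*1 + 16*y*0*1 + 64*α*y*0*1))) :
    0 ≤ ray9 α y (x_e) (x_ab) (x_cd) (x_abcd2) (x_ac + x_ad + x_bc + x_bd) (x_abc + x_abd) (x_acd + x_bcd) (x_abcd) (x_acbd + x_adbc) := by
  refine le_of_le_of_eq (sub_nonneg.mpr h) ?_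
  rw [ray9]
  ring

variable [Fintype V]

lemma ray9_nonneg (a b c d : V) (α y : ℝ) : 0 ≤ ray9 α y (gT ends S a b c d) (gP1 ends S a b c d) (gQ1 ends S a b c d) (gZ1 ends S a b c d) (gX ends S a b c d) (gP2 ends S a b c d) (gQ2 ends S a b c d) (gZ2 ends S a b c d) (gY ends S a b c d) := by
  have h := rayleighT ends S ![a, b, c, d] (aC α y 0 0) (aC_symm _ _ _ _) ![1, -1, 0, 0]
    ![0, 0, 1, -1]
  rw [aC_add1, aC_add2, aC_add2, RT_aC, RT_aC, RT_aC, RT_aC] at h
  unfold gT gP1 gQ1 gZ1 gX gP2 gQ2 gZ2 gY
  exact ray9_of α y _ _ _ _ _ _ _ _ _ _ _ _ _ _ _ h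

lemma K1_agg {a b c d : V} (hab : a ≠ b) (hac : a ≠ c) (had : a ≠ d) (hbc : b ≠ c) (hbd : b ≠ d)
    (hcd : c ≠ d) :
    0 ≤ gP2 ends S a b c d*(gT ends S a b c d + gQ1 ends S a b c d) + gZ2 ends S a b c d*(2*gT ends S a b c d + 2*gQ1 ends S a b c d + gX ends S a b c d) - (gP1 ends S a b c d + gZ1 ends S a b c d)*(gX ends S a b c d + 2*gQ2 ends S a b c d + 2*gY ends S a b c d) - gP2 ends S a b c d*(gQ2 ends S a b c d + gY ends S a b c d) := by
  have h1 := K_abc ends S (d := d) hab hbc hac.symm
  have h2 := K_abd ends S (c := c) hab hbd had.symm
  have n_abcd := xb_nonneg ends S a b c d true true true true true true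
  have n_abc := xb_nonneg ends S a b c d true true false true false false
  have n_abd := xb_nonneg ends S a b c d true false true false true false
  have n_abcd2 := xb_nonneg ends S a b c d true false false false false true
  have n_ab := xb_nonneg ends S a b c d true false false false false false
  have n_acd := xb_nonneg ends S a b c d false true true false false true
  have n_acbd := xb_nonneg ends S a b c d false true false false true false
  have n_ac := xb_nonneg ends S a b c d false true false false false false
  have n_adbc := xb_nonneg ends S a b c d false false true true false false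
  have n_bcd := xb_nonneg ends S a b c d false false false true true true
  have n_bc := xb_nonneg ends S a b c d false false false true false false
  have n_ad := xb_nonneg ends S a b c d false false true false false false
  have n_bd := xb_nonneg ends S a b c d false false false false true false
  have n_cd := xb_nonneg ends S a b c d false false false false false true
  have n_e := xb_nonneg ends S a b c d false false false false false false
  unfold gT gP1 gQ1 gZ1 gX gP2 gQ2 gZ2 gY
  generalize xb ends S a b c d true true true true true true = x_abcd at *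
  generalize xb ends S a b c d true true false true false false = x_abc at *
  generalize xb ends S a b c d true false true false true false = x_abd at *
  generalize xb ends S a b c d true false false false false true = x_abcd2 at *
  generalize xb ends S a b c d true false false false false false = x_ab at *
  generalize xb ends S a b c d false true true false false true = x_acd at *
  generalize xb ends S a b c d false true false false true false = x_acbd at *
  generalize xb ends S a b c d false true false false false false = x_ac at *
  generalize xb ends S a b c d false false true true false false = x_adbc at *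
  generalize xb ends S a b c d false false false true true true = x_bcd at *
  generalize xb ends S a b c d false false false true false false = x_bc at *
  generalize xb ends S a b c d false false true false false false = x_ad at *
  generalize xb ends S a b c d false false false false true false = x_bd at *
  generalize xb ends S a b c d false false false false false true = x_cd at *
  generalize xb ends S a b c d false false false false false false = x_e at *
  have p1 := mul_nonneg (add_nonneg (add_nonneg n_ac n_acd) n_acbd) (add_nonneg (add_nonneg n_bc n_bcd) n_adbc)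
  have p2 := mul_nonneg (add_nonneg (add_nonneg n_ad n_acd) n_adbc) (add_nonneg (add_nonneg n_bd n_bcd) n_acbd)
  linarith

lemma K2_agg {a b c d : V} (hab : a ≠ b) (hac : a ≠ c) (had : a ≠ d) (hbc : b ≠ c) (hbd : b ≠ d)
    (hcd : c ≠ d) :
    0 ≤ gQ2 ends S a b c d*(gT ends S a b c d + gP1 ends S a b c d) + gZ2 ends S a b c d*(2*gT ends S a b c d + 2*gP1 ends S a b c d + gX ends S a b c d) - (gQ1 ends S a b c d + gZ1 ends S a b c d)*(gX ends S a b c d + 2*gP2 ends S a b c d + 2*gY ends S a b c d) - gQ2 ends S a b c d*(gP2 ends S a b c d + gY ends S a b c d) := by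
  have h1 := K_acd ends S (b := b) hac hcd had.symm
  have h2 := K_bcd ends S (a := a) hbc hcd hbd.symm
  have n_abcd := xb_nonneg ends S a b c d true true true true true true
  have n_abc := xb_nonneg ends S a b c d true true false true false false
  have n_abd := xb_nonneg ends S a b c d true false true false true false
  have n_abcd2 := xb_nonneg ends S a b c d true false false false false true
  have n_ab := xb_nonneg ends S a b c d true false false false false false
  have n_acd := xb_nonneg ends S a b c d false true true false false true
  have n_acbd := xb_nonneg ends S a b c d false true false false true false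
  have n_ac := xb_nonneg ends S a b c d false true false false false false
  have n_adbc := xb_nonneg ends S a b c d false false true true false false
  have n_bcd := xb_nonneg ends S a b c d false false false true true true
  have n_bc := xb_nonneg ends S a b c d false false false true false false
  have n_ad := xb_nonneg ends S a b c d false false true false false false
  have n_bd := xb_nonneg ends S a b c d false false false false true false
  have n_cd := xb_nonneg ends S a b c d false false false false false true
  have n_e := xb_nonneg ends S a b c d false false false false false false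
  unfold gT gP1 gQ1 gZ1 gX gP2 gQ2 gZ2 gY
  generalize xb ends S a b c d true true true true true true = x_abcd at *
  generalize xb ends S a b c d true true false true false false = x_abc at *
  generalize xb ends S a b c d true false true false true false = x_abd at *
  generalize xb ends S a b c d true false false false false true = x_abcd2 at *
  generalize xb ends S a b c d true false false false false false = x_ab at *
  generalize xb ends S a b c d false true true false false true = x_acd at *
  generalize xb ends S a b c d false true false false true false = x_acbd at *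
  generalize xb ends S a b c d false true false false false false = x_ac at *
  generalize xb ends S a b c d false false true true false false = x_adbc at *
  generalize xb ends S a b c d false false false true true true = x_bcd at *
  generalize xb ends S a b c d false false false true false false = x_bc at *
  generalize xb ends S a b c d false false true false false false = x_ad at *
  generalize xb ends S a b c d false false false false true false = x_bd at *
  generalize xb ends S a b c d false false false false false true = x_cd at *
  generalize xb ends S a b c d false false false false false false = x_e at *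
  have p1 := mul_nonneg (add_nonneg (add_nonneg n_ac n_abc) n_acbd) (add_nonneg (add_nonneg n_ad n_abd) n_adbc)
  have p2 := mul_nonneg (add_nonneg (add_nonneg n_bc n_abc) n_adbc) (add_nonneg (add_nonneg n_bd n_abd) n_acbd)
  linarith

lemma M1_agg {a b c d : V} (hab : a ≠ b) (hac : a ≠ c) (had : a ≠ d) (hbc : b ≠ c) (hbd : b ≠ d)
    (hcd : c ≠ d) :
    0 ≤ gT ends S a b c d*(gP2 ends S a b c d + gY ends S a b c d) - gP1 ends S a b c d*gX ends S a b c d := by
  have h1 := M_cabd ends S hac.symm hab hbc hcd had hbd
  have n_abcd := xb_nonneg ends S a b c d true true true true true true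
  have n_abc := xb_nonneg ends S a b c d true true false true false false
  have n_abd := xb_nonneg ends S a b c d true false true false true false
  have n_abcd2 := xb_nonneg ends S a b c d true false false false false true
  have n_ab := xb_nonneg ends S a b c d true false false false false false
  have n_acd := xb_nonneg ends S a b c d false true true false false true
  have n_acbd := xb_nonneg ends S a b c d false true false false true false
  have n_ac := xb_nonneg ends S a b c d false true false false false false
  have n_adbc := xb_nonneg ends S a b c d false false true true false false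
  have n_bcd := xb_nonneg ends S a b c d false false false true true true
  have n_bc := xb_nonneg ends S a b c d false false false true false false
  have n_ad := xb_nonneg ends S a b c d false false true false false false
  have n_bd := xb_nonneg ends S a b c d false false false false true false
  have n_cd := xb_nonneg ends S a b c d false false false false false true
  have n_e := xb_nonneg ends S a b c d false false false false false false
  unfold gT gP1 gX gP2 gY
  generalize xb ends S a b c d true true true true true true = x_abcd at *
  generalize xb ends S a b c d true true false true false false = x_abc at *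
  generalize xb ends S a b c d true false true false true false = x_abd at *
  generalize xb ends S a b c d true false false false false true = x_abcd2 at *
  generalize xb ends S a b c d true false false false false false = x_ab at *
  generalize xb ends S a b c d false true true false false true = x_acd at *
  generalize xb ends S a b c d false true false false true false = x_acbd at *
  generalize xb ends S a b c d false true false false false false = x_ac at *
  generalize xb ends S a b c d false false true true false false = x_adbc at *
  generalize xb ends S a b c d false false false true true true = x_bcd at *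
  generalize xb ends S a b c d false false false true false false = x_bc at *
  generalize xb ends S a b c d false false true false false false = x_ad at *
  generalize xb ends S a b c d false false false false true false = x_bd at *
  generalize xb ends S a b c d false false false false false true = x_cd at *
  generalize xb ends S a b c d false false false false false false = x_e at *
  have p1 := mul_nonneg (add_nonneg n_ac n_ad) (add_nonneg n_bc n_bd)
  linarith

lemma M2_agg {a b c d : V} (hab : a ≠ b) (hac : a ≠ c) (had : a ≠ d) (hbc : b ≠ c) (hbd : b ≠ d)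
    (hcd : c ≠ d) :
    0 ≤ gT ends S a b c d*(gQ2 ends S a b c d + gY ends S a b c d) - gQ1 ends S a b c d*gX ends S a b c d := by
  have h1 := M_acdb ends S hac hcd had.symm hab hbc.symm hbd.symm
  have n_abcd := xb_nonneg ends S a b c d true true true true true true
  have n_abc := xb_nonneg ends S a b c d true true false true false false
  have n_abd := xb_nonneg ends S a b c d true false true false true false
  have n_abcd2 := xb_nonneg ends S a b c d true false false false false true
  have n_ab := xb_nonneg ends S a b c d true false false false false false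
  have n_acd := xb_nonneg ends S a b c d false true true false false true
  have n_acbd := xb_nonneg ends S a b c d false true false false true false
  have n_ac := xb_nonneg ends S a b c d false true false false false false
  have n_adbc := xb_nonneg ends S a b c d false false true true false false
  have n_bcd := xb_nonneg ends S a b c d false false false true true true
  have n_bc := xb_nonneg ends S a b c d false false false true false false
  have n_ad := xb_nonneg ends S a b c d false false true false false false
  have n_bd := xb_nonneg ends S a b c d false false false false true false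
  have n_cd := xb_nonneg ends S a b c d false false false false false true
  have n_e := xb_nonneg ends S a b c d false false false false false false
  unfold gT gQ1 gX gQ2 gY
  generalize xb ends S a b c d true true true true true true = x_abcd at *
  generalize xb ends S a b c d true true false true false false = x_abc at *
  generalize xb ends S a b c d true false true false true false = x_abd at *
  generalize xb ends S a b c d true false false false false true = x_abcd2 at *
  generalize xb ends S a b c d true false false false false false = x_ab at *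
  generalize xb ends S a b c d false true true false false true = x_acd at *
  generalize xb ends S a b c d false true false false true false = x_acbd at *
  generalize xb ends S a b c d false true false false false false = x_ac at *
  generalize xb ends S a b c d false false true true false false = x_adbc at *
  generalize xb ends S a b c d false false false true true true = x_bcd at *
  generalize xb ends S a b c d false false false true false false = x_bc at *
  generalize xb ends S a b c d false false true false false false = x_ad at *
  generalize xb ends S a b c d false false false false true false = x_bd at *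
  generalize xb ends S a b c d false false false false false true = x_cd at *
  generalize xb ends S a b c d false false false false false false = x_e at *
  have p1 := mul_nonneg (add_nonneg n_ac n_bc) (add_nonneg n_ad n_bd)
  linarith

lemma M3_agg {a b c d : V} (hab : a ≠ b) (hac : a ≠ c) (had : a ≠ d) (hbc : b ≠ c) (hbd : b ≠ d)
    (hcd : c ≠ d) :
    0 ≤ gT ends S a b c d*(gP2 ends S a b c d + gQ2 ends S a b c d + 2*gZ1 ends S a b c d + gY ends S a b c d) - (gP1 ends S a b c d + gQ1 ends S a b c d)*gX ends S a b c d - 2*gP1 ends S a b c d*gQ1 ends S a b c d := by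
  have h1 := M_abcd ends S hab hbc hac.symm had hbd hcd
  have h2 := M_abdc ends S hab hbd had.symm hac hbc hcd.symm
  have h3 := M_bacd ends S hab.symm hac hbc.symm hbd had hcd
  have h4 := M_badc ends S hab.symm had hbd.symm hbc hac hcd.symm
  have n_abcd := xb_nonneg ends S a b c d true true true true true true
  have n_abc := xb_nonneg ends S a b c d true true false true false false
  have n_abd := xb_nonneg ends S a b c d true false true false true false
  have n_abcd2 := xb_nonneg ends S a b c d true false false false false true
  have n_ab := xb_nonneg ends S a b c d true false false false false false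
  have n_acd := xb_nonneg ends S a b c d false true true false false true
  have n_acbd := xb_nonneg ends S a b c d false true false false true false
  have n_ac := xb_nonneg ends S a b c d false true false false false false
  have n_adbc := xb_nonneg ends S a b c d false false true true false false
  have n_bcd := xb_nonneg ends S a b c d false false false true true true
  have n_bc := xb_nonneg ends S a b c d false false false true false false
  have n_ad := xb_nonneg ends S a b c d false false true false false false
  have n_bd := xb_nonneg ends S a b c d false false false false true false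
  have n_cd := xb_nonneg ends S a b c d false false false false false true
  have n_e := xb_nonneg ends S a b c d false false false false false false
  unfold gT gP1 gQ1 gZ1 gX gP2 gQ2 gY
  generalize xb ends S a b c d true true true true true true = x_abcd at *
  generalize xb ends S a b c d true true false true false false = x_abc at *
  generalize xb ends S a b c d true false true false true false = x_abd at *
  generalize xb ends S a b c d true false false false false true = x_abcd2 at *
  generalize xb ends S a b c d true false false false false false = x_ab at *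
  generalize xb ends S a b c d false true true false false true = x_acd at *
  generalize xb ends S a b c d false true false false true false = x_acbd at *
  generalize xb ends S a b c d false true false false false false = x_ac at *
  generalize xb ends S a b c d false false true true false false = x_adbc at *
  generalize xb ends S a b c d false false false true true true = x_bcd at *
  generalize xb ends S a b c d false false false true false false = x_bc at *
  generalize xb ends S a b c d false false true false false false = x_ad at *
  generalize xb ends S a b c d false false false false true false = x_bd at *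
  generalize xb ends S a b c d false false false false false true = x_cd at *
  generalize xb ends S a b c d false false false false false false = x_e at *
  have q_ac_ad := mul_nonneg n_ac n_ad
  have q_ac_bc := mul_nonneg n_ac n_bc
  have q_ac_bd := mul_nonneg n_ac n_bd
  have q_ad_bc := mul_nonneg n_ad n_bc
  have q_ad_bd := mul_nonneg n_ad n_bd
  have q_bc_bd := mul_nonneg n_bc n_bd
  linarith

end Pool.Agent.Lib.MP_d90615_co
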