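import Pool.Agent.Lib.MP_d90615_co.Three

/-!
Expansion of forest sums into the fifteen pattern counts of four vertices.
-/

namespace Pool.Agent.Lib.MP_d90615_co

open Matrix Finset
open scoped Classical

variable {V E : Type*}

/-- Select `m` or `1 - m`. -/
def sel (f : Bool) (m : ℝ) : ℝ := if f then m else 1 - m

/-- The indicator polynomial of a connection pattern. -/
def xs (f1 f2 f3 f4 f5 f6 : Bool) (m1 m2 m3 m4 m5 m6 : ℝ) : ℝ :=
  sel f1 m1 * sel f2 m2 * sel f3 m3 * sel f4 m4 * sel f5 m5 * sel f6 m6

lemma sel_nonneg (f : Bool) (p : Prop) : 0 ≤ sel f (ind p) := by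
  unfold sel ind
  split_ifs <;> norm_num

/-- Number of forests with a given connection pattern of `a, b, c, d`
(pairs `ab, ac, ad, bc, bd, cd`). -/
noncomputable def xb (ends : E → Sym2 V) (S : Finset E) (a b c d : V)
    (f1 f2 f3 f4 f5 f6 : Bool) : ℝ :=
  ∑ F ∈ S.powerset with Forest ends F, xs f1 f2 f3 f4 f5 f6
    (ind (Conn ends F a b)) (ind (Conn ends F a c)) (ind (Conn ends F a d))
    (ind (Conn ends F b c)) (ind (Conn ends F b d)) (ind (Conn ends F c d))

lemma xb_nonneg (ends : E → Sym2 V) (S : Finset E) (a b c d : V)
    (f1 f2 f3 f4 f5 f6 : Bool) : 0 ≤ xb ends S a b c d f1 f2 f3 f4 f5 f6 := by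
  refine Finset.sum_nonneg fun F _ => ?_
  unfold xs
  exact mul_nonneg (mul_nonneg (mul_nonneg (mul_nonneg (mul_nonneg (sel_nonneg _ _)
    (sel_nonneg _ _)) (sel_nonneg _ _)) (sel_nonneg _ _)) (sel_nonneg _ _)) (sel_nonneg _ _)

lemma expand (ends : E → Sym2 V) (S : Finset E) (a b c d : V)
    (φ : ℝ → ℝ → ℝ → ℝ → ℝ → ℝ → ℝ) :
    (∑ F ∈ S.powerset with Forest ends F,
      φ (ind (Conn ends F a b)) (ind (Conn ends F a c)) (ind (Conn ends F a d))
        (ind (Conn ends F b c)) (ind (Conn ends F b d)) (ind (Conn ends F c d))) =
    xb ends S a b c d true true true true true true * φ 1 1 1 1 1 1 +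
      xb ends S a b c d true true false true false false * φ 1 1 0 1 0 0 +
      xb ends S a b c d true false true false true false * φ 1 0 1 0 1 0 +
      xb ends S a b c d true false false false false true * φ 1 0 0 0 0 1 +
      xb ends S a b c d true false false false false false * φ 1 0 0 0 0 0 +
      xb ends S a b c d false true true false false true * φ 0 1 1 0 0 1 +
      xb ends S a b c d false true false false true false * φ 0 1 0 0 1 0 +
      xb ends S a b c d false true false false false false * φ 0 1 0 0 0 0 +
      xb ends S a b c d false false true true false false * φ 0 0 1 1 0 0 +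
      xb ends S a b c d false false false true true true * φ 0 0 0 1 1 1 +
      xb ends S a b c d false false false true false false * φ 0 0 0 1 0 0 +
      xb ends S a b c d false false true false false false * φ 0 0 1 0 0 0 +
      xb ends S a b c d false false false false true false * φ 0 0 0 0 1 0 +
      xb ends S a b c d false false false false false true * φ 0 0 0 0 0 1 +
      xb ends S a b c d false false false false false false * φ 0 0 0 0 0 0 := by
  simp only [xb, Finset.sum_mul]
  simp only [← Finset.sum_add_distrib]
  refine Finset.sum_congr rfl fun F _ => ?_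
  rcases ind4d ends F a b c d with h | h | h | h | h | h | h | h | h | h | h | h | h | h | h <;>
    obtain ⟨h1, h2, h3, h4, h5, h6⟩ := h <;> rw [h1, h2, h3, h4, h5, h6] <;>
    simp [xs, sel]

end Pool.Agent.Lib.MP_d90615_co

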