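import Mathlib

/-!
Connectivity and forests in a finite multigraph given by `ends : E → Sym2 V`.
-/

namespace Pool.Agent.Lib.MP_d90615_co

open Finset

variable {V E : Type*}

/-- `i` and `j` are joined by a walk with edges in `F`. -/
def Conn (ends : E → Sym2 V) (F : Finset E) : V → V → Prop :=
  Relation.ReflTransGen (fun a b => ∃ e ∈ F, ends e = s(a, b))

lemma Conn.refl (ends : E → Sym2 V) (F : Finset E) (i : V) : Conn ends F i i :=
  Relation.ReflTransGen.refl

lemma Conn.trans {ends : E → Sym2 V} {F : Finset E} {i j k : V}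
    (h : Conn ends F i j) (h' : Conn ends F j k) : Conn ends F i k :=
  Relation.ReflTransGen.trans h h'

lemma Conn.symm {ends : E → Sym2 V} {F : Finset E} {i j : V}
    (h : Conn ends F i j) : Conn ends F j i := by
  induction h with
  | refl => exact Conn.refl _ _ _
  | tail _ hbc ih =>
    obtain ⟨e, he, hs⟩ := hbc
    exact Relation.ReflTransGen.head ⟨e, he, by rw [hs, Sym2.eq_swap]⟩ ih

lemma Conn.mono {ends : E → Sym2 V} {F G : Finset E} (hFG : F ⊆ G) {i j : V}
    (h : Conn ends F i j) : Conn ends G i j := by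
  induction h with
  | refl => exact Conn.refl _ _ _
  | tail _ hbc ih =>
    obtain ⟨e, he, hs⟩ := hbc
    exact Relation.ReflTransGen.tail ih ⟨e, hFG he, hs⟩

lemma Conn.single {ends : E → Sym2 V} {F : Finset E} {e : E} (he : e ∈ F) {i j : V}
    (h : ends e = s(i, j)) : Conn ends F i j :=
  Relation.ReflTransGen.single ⟨e, he, h⟩

variable [DecidableEq E]

lemma conn_insert {ends : E → Sym2 V} {F : Finset E} {e : E} {u v : V}
    (he : ends e = s(u, v)) (i j : V) :
    Conn ends (insert e F) i j ↔
      Conn ends F i j ∨ (Conn ends F i u ∧ Conn ends F v j) ∨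
        (Conn ends F i v ∧ Conn ends F u j) := by
  constructor
  · intro h
    induction h with
    | refl => exact Or.inl (Conn.refl _ _ _)
    | @tail b c _ hbc ih =>
      obtain ⟨f, hf, hs⟩ := hbc
      rcases Finset.mem_insert.mp hf with rfl | hf
      · rw [he] at hs
        rcases Sym2.eq_iff.mp hs with ⟨rfl, rfl⟩ | ⟨rfl, rfl⟩
        · -- b = u, c = v
          rcases ih with h | ⟨h1, _⟩ | ⟨h1, _⟩
          · exact Or.inr (Or.inl ⟨h, Conn.refl _ _ _⟩)
          · exact Or.inr (Or.inl ⟨h1, Conn.refl _ _ _⟩)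
          · exact Or.inl h1
        · rcases ih with h | ⟨h1, _⟩ | ⟨h1, _⟩
          · exact Or.inr (Or.inr ⟨h, Conn.refl _ _ _⟩)
          · exact Or.inl h1
          · exact Or.inr (Or.inr ⟨h1, Conn.refl _ _ _⟩)
      · have hbc : Conn ends F b c := Conn.single hf hs
        rcases ih with h | ⟨h1, h2⟩ | ⟨h1, h2⟩
        · exact Or.inl (h.trans hbc)
        · exact Or.inr (Or.inl ⟨h1, h2.trans hbc⟩)
        · exact Or.inr (Or.inr ⟨h1, h2.trans hbc⟩)
  · have hsub : F ⊆ insert e F := Finset.subset_insert _ _
    have huv : Conn ends (insert e F) u v := Conn.single (Finset.mem_insert_self _ _) he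
    rintro (h | ⟨h1, h2⟩ | ⟨h1, h2⟩)
    · exact h.mono hsub
    · exact ((h1.mono hsub).trans huv).trans (h2.mono hsub)
    · exact ((h1.mono hsub).trans huv.symm).trans (h2.mono hsub)

/-- `F` is a forest: no edge of `F` has its ends joined by the other edges of `F`. -/
def Forest (ends : E → Sym2 V) (F : Finset E) : Prop :=
  ∀ e ∈ F, ∀ u v, ends e = s(u, v) → ¬ Conn ends (F.erase e) u v

lemma Forest.subset {ends : E → Sym2 V} {F G : Finset E} (hG : Forest ends G) (h : F ⊆ G) :
    Forest ends F := by
  intro e he u v huv hc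
  exact hG e (h he) u v huv (hc.mono (Finset.erase_subset_erase e h))

lemma forest_insert {ends : E → Sym2 V} {F : Finset E} {e : E} {u v : V}
    (he : ends e = s(u, v)) (heF : e ∉ F) :
    Forest ends (insert e F) ↔ Forest ends F ∧ ¬ Conn ends F u v := by
  constructor
  · intro h
    refine ⟨h.subset (Finset.subset_insert _ _), ?_⟩
    have := h e (Finset.mem_insert_self _ _) u v he
    rwa [Finset.erase_insert heF] at this
  · rintro ⟨hF, hc⟩ f hf a b hab hcon
    rcases Finset.mem_insert.mp hf with rfl | hf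
    · rw [Finset.erase_insert heF] at hcon
      rw [he] at hab
      rcases Sym2.eq_iff.mp hab with ⟨rfl, rfl⟩ | ⟨rfl, rfl⟩
      · exact hc hcon
      · exact hc hcon.symm
    · have hne : f ≠ e := fun h => heF (h ▸ hf)
      rw [Finset.erase_insert_of_ne hne.symm] at hcon
      have hsub : F.erase f ⊆ F := Finset.erase_subset _ _
      have hab' : Conn ends F a b := Conn.single hf hab
      rcases (conn_insert he a b).mp hcon with h | ⟨h1, h2⟩ | ⟨h1, h2⟩
      · exact hF f hf a b hab h
      · exact hc (((h1.mono hsub).symm.trans hab').trans (h2.mono hsub).symm)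
      · exact hc (((h2.mono hsub).trans hab'.symm).trans (h1.mono hsub))

end Pool.Agent.Lib.MP_d90615_co
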