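import Pool.Agent.Lib.MP_d90615_co.Mg.G035

/-!
The three terminal inequality, by induction on the number of edges.
-/

namespace Pool.Agent.Lib.MP_d90615_co

open Matrix Finset
open scoped Classical

variable {V E : Type*}

/-- The quadratic expression of the three terminal inequality. -/
def dl (N U Q P S : ℝ) : ℝ := S * (N + U + Q + P) - S ^ 2 - (U * Q + Q * P + P * U)

/-- `dl` of the forest counts. -/
noncomputable def dd (ends : E → Sym2 V) (S : Finset E) (a b c : V) : ℝ :=
  dl (cN ends S) (c2 ends S a b) (c2 ends S b c) (c2 ends S c a) (c3 ends S a b c)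

lemma dd_swap (ends : E → Sym2 V) (S : Finset E) (a b c : V) :
    dd ends S a b c = dd ends S b a c := by
  rw [dd, dd, c2_comm ends S b a, c2_comm ends S a c, c2_comm ends S c b, c3_flip ends S b a c,
    c3_rot ends S c a b, dl, dl]
  ring

/-- An edge `ca` between two terminals does not change `dd`. -/
lemma dd_terminal (ends : E → Sym2 V) {S : Finset E} {e : E} (heS : e ∉ S) {a b c : V}
    (he : ends e = s(c, a)) : dd ends (insert e S) a b c = dd ends S a b c := by
  have key : ∀ F : Finset E,
      (1 - ind (Conn ends F c a)) * ind (Conn ends (insert e F) a b) =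
        ind (Conn ends F a b) + ind (Conn ends F b c)
          - 2 * (ind (Conn ends F a b) * ind (Conn ends F b c)) ∧
      (1 - ind (Conn ends F c a)) * ind (Conn ends (insert e F) b c) =
        ind (Conn ends F a b) + ind (Conn ends F b c)
          - 2 * (ind (Conn ends F a b) * ind (Conn ends F b c)) ∧
      (1 - ind (Conn ends F c a)) * ind (Conn ends (insert e F) c a) =
        1 - ind (Conn ends F c a) ∧
      (1 - ind (Conn ends F c a)) *
        (ind (Conn ends (insert e F) a b) * ind (Conn ends (insert e F) b c)) =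
        ind (Conn ends F a b) + ind (Conn ends F b c)
          - 2 * (ind (Conn ends F a b) * ind (Conn ends F b c)) := by
    intro F
    have i1 := conn_insert (F := F) he a b
    have i2 := conn_insert (F := F) he b c
    have i3 := conn_insert (F := F) he c a
    have n1 : Conn ends F a b → Conn ends F b c → Conn ends F c a := fun h h' =>
      (h.trans h').symm
    have n2 : Conn ends F b c → Conn ends F c a → Conn ends F a b := fun h h' =>
      (h.trans h').symm
    have n3 : Conn ends F a b → Conn ends F c a → Conn ends F b c := fun h h' =>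
      (h'.trans h).symm
    have r1 := Conn.refl ends F a
    have r2 := Conn.refl ends F c
    have s1 : Conn ends F a c ↔ Conn ends F c a := ⟨Conn.symm, Conn.symm⟩
    have s2 : Conn ends F c b ↔ Conn ends F b c := ⟨Conn.symm, Conn.symm⟩
    have s3 : Conn ends F b a ↔ Conn ends F a b := ⟨Conn.symm, Conn.symm⟩
    unfold ind
    rw [s1, s2] at i1
    rw [s3] at i2
    by_cases h1 : Conn ends F a b <;> by_cases h2 : Conn ends F b c <;>
      by_cases h3 : Conn ends F c a <;>
      simp [h1, h2, h3] at n1 n2 n3 <;>
      simp [h1, h2, h3, r1, r2, i1, i2, i3] <;> norm_num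
  have e0 : cN ends (insert e S) = 2 * cN ends S - c2 ends S c a := by
    rw [cN, sum_split ends heS he, cN, c2, two_mul, add_sub_assoc, ← Finset.sum_sub_distrib]
    simp only [mul_one]
  have e1 : c2 ends (insert e S) a b =
      2 * c2 ends S a b + c2 ends S b c - 2 * c3 ends S a b c := by
    rw [c2, sum_split ends heS he, Finset.sum_congr rfl fun F _ => (key F).1,
      Finset.sum_sub_distrib, Finset.sum_add_distrib, ← Finset.mul_sum, c2, c2, c3]
    ring
  have e2 : c2 ends (insert e S) b c =
      c2 ends S a b + 2 * c2 ends S b c - 2 * c3 ends S a b c := by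
    rw [c2, sum_split ends heS he, Finset.sum_congr rfl fun F _ => (key F).2.1,
      Finset.sum_sub_distrib, Finset.sum_add_distrib, ← Finset.mul_sum, c2, c2, c3]
    ring
  have e3 : c2 ends (insert e S) c a = cN ends S := by
    rw [c2, sum_split ends heS he, Finset.sum_congr rfl fun F _ => (key F).2.2.1,
      Finset.sum_sub_distrib, cN]
    ring
  have e4 : c3 ends (insert e S) a b c =
      c2 ends S a b + c2 ends S b c - c3 ends S a b c := by
    rw [c3, sum_split ends heS he, Finset.sum_congr rfl fun F _ => (key F).2.2.2,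
      Finset.sum_sub_distrib, Finset.sum_add_distrib, ← Finset.mul_sum, c2, c2, c3]
    ring
  rw [dd, e0, e1, e2, e3, e4, dd, dl, dl]
  ring

/-- Splitting off an edge `cv` with `v` not a terminal. -/
lemma c2_internal (ends : E → Sym2 V) {S : Finset E} {e : E} (heS : e ∉ S) {c v i j : V}
    (he : ends e = s(c, v)) (hcv : c ≠ v) (hi : i ≠ v) (hj : j ≠ v) :
    c2 ends (insert e S) i j = c2 ends S i j + c2 (gends ends c v) S i j := by
  rw [c2, sum_split ends heS he, c2, c2, sum_glue ends S hcv]
  congr 1
  refine Finset.sum_congr rfl fun F _ => ?_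
  have := conn_insert_glue (F := F) he hi hj
  rw [this]

lemma c3_internal (ends : E → Sym2 V) {S : Finset E} {e : E} (heS : e ∉ S) {a b c v : V}
    (he : ends e = s(c, v)) (hcv : c ≠ v) (ha : a ≠ v) (hb : b ≠ v) :
    c3 ends (insert e S) a b c = c3 ends S a b c + c3 (gends ends c v) S a b c := by
  rw [c3, sum_split ends heS he, c3, c3, sum_glue ends S hcv]
  congr 1
  refine Finset.sum_congr rfl fun F _ => ?_
  rw [conn_insert_glue (F := F) he ha hb, conn_insert_glue (F := F) he hb hcv]

lemma cN_internal (ends : E → Sym2 V) {S : Finset E} {e : E} (heS : e ∉ S) {c v : V}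
    (he : ends e = s(c, v)) (hcv : c ≠ v) :
    cN ends (insert e S) = cN ends S + cN (gends ends c v) S := by
  rw [cN, sum_split ends heS he, cN, cN, sum_glue ends S hcv]

/-- An isolated terminal. -/
lemma dd_isolated (ends : E → Sym2 V) (S : Finset E) {a b c : V} (hbc : b ≠ c) (hca : c ≠ a)
    (h : ∀ e ∈ S, ∀ v, ends e = s(c, v) → v = c) : dd ends S a b c = 0 := by
  have hiso : ∀ F ∈ S.powerset.filter (fun F => Forest ends F), ∀ x, Conn ends F c x → x = c := by
    intro F hF x hx
    have hFS := Finset.mem_powerset.mp (Finset.mem_filter.mp hF).1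
    unfold Conn at hx
    induction hx with
    | refl => rfl
    | tail _ hs ih =>
      obtain ⟨e, he, hs⟩ := hs
      rw [ih] at hs
      exact h e (hFS he) _ hs
  have e1 : c2 ends S c a = 0 := by
    rw [c2]
    refine Finset.sum_eq_zero fun F hF => ind_neg fun hc => ?_
    exact hca (hiso F hF a hc).symm
  have e2 : c2 ends S b c = 0 := by
    rw [c2]
    refine Finset.sum_eq_zero fun F hF => ind_neg fun hc => ?_
    exact hbc (hiso F hF b hc.symm)
  have e3 : c3 ends S a b c = 0 := by
    rw [c3]
    refine Finset.sum_eq_zero fun F hF => ?_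
    rw [ind_neg (fun hc : Conn ends F b c => hbc (hiso F hF b hc.symm)), mul_zero]
  rw [dd, e1, e2, e3, dl]
  ring

variable [Fintype V]

/-- The discriminant inequality. -/
lemma pr_disc (ends : E → Sym2 V) (S : Finset E) {a b c v : V} (hcv : c ≠ v) (ha : a ≠ v)
    (hb : b ≠ v) :
    (cT ends S a b c * (c2 (gends ends c v) S a b - c3 (gends ends c v) S a b c)
        - cT (gends ends c v) S a b c * (c2 ends S a b - c3 ends S a b c)) ^ 2 ≤
      (cT ends S a b c * (cN (gends ends c v) S - c2 (gends ends c v) S c a)
        - cT (gends ends c v) S a b c * (cN ends S - c2 ends S c a)) *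
      (cT ends S a b c * (cN (gends ends c v) S - c2 (gends ends c v) S b c)
        - cT (gends ends c v) S a b c * (cN ends S - c2 ends S b c)) := by
  have h := discrim_le_zero
    (a := cT ends S a b c * (cN (gends ends c v) S - c2 (gends ends c v) S b c)
        - cT (gends ends c v) S a b c * (cN ends S - c2 ends S b c))
    (b := 2 * (cT ends S a b c * (c2 (gends ends c v) S a b - c3 (gends ends c v) S a b c)
        - cT (gends ends c v) S a b c * (c2 ends S a b - c3 ends S a b c)))
    (c := cT ends S a b c * (cN (gends ends c v) S - c2 (gends ends c v) S c a)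
        - cT (gends ends c v) S a b c * (cN ends S - c2 ends S c a))
    (by
      intro r
      have hr := pr_ray ends S hcv ha hb r
      rw [pr, pr] at hr
      nlinarith [hr])
  rw [discrim] at h
  nlinarith [h]

/-- **The three terminal inequality.** -/
theorem dd_nonneg : ∀ (n : ℕ) (ends : E → Sym2 V) (S : Finset E), S.card = n →
    ∀ a b c : V, a ≠ b → b ≠ c → c ≠ a → 0 ≤ dd ends S a b c := by
  intro n
  induction n using Nat.strong_induction_on with
  | _ n ih =>
    intro ends S hS a b c hab hbc hca
    by_cases hex : ∃ e ∈ S, ∃ v, ends e = s(c, v) ∧ v ≠ c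
    · obtain ⟨e, heS, v, he, hvc⟩ := hex
      have hins : S = insert e (S.erase e) := (Finset.insert_erase heS).symm
      have hne : e ∉ S.erase e := Finset.notMem_erase _ _
      have hcard : (S.erase e).card < n := by
        rw [← hS]
        exact Finset.card_erase_lt_of_mem heS
      rw [hins]
      by_cases hva : v = a
      · rw [hva] at he
        rw [dd_terminal ends hne he]
        exact ih _ hcard ends _ rfl a b c hab hbc hca
      by_cases hvb : v = b
      · rw [hvb] at he
        rw [dd_swap, dd_terminal ends hne he, ← dd_swap]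
        exact ih _ hcard ends _ rfl a b c hab hbc hca
      set S' := S.erase e
      have hcv : c ≠ v := fun h => hvc h.symm
      have hav : a ≠ v := fun h => hva h.symm
      have hbv : b ≠ v := fun h => hvb h.symm
      have i0 := ih _ hcard ends _ rfl a b c hab hbc hca
      have i1 := ih _ hcard (gends ends c v) _ rfl a b c hab hbc hca
      have t0 := cT_pos ends S' hab hbc hca
      have t1 := cT_pos (gends ends c v) S' hab hbc hca
      have hd := pr_disc ends S' hcv hav hbv
      rw [dd, cN_internal ends hne he hcv, c2_internal ends hne he hcv hav hbv,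
        c2_internal ends hne he hcv hbv hcv, c2_internal ends hne he hcv hcv hav,
        c3_internal ends hne he hcv hav hbv]
      rw [dd] at i0 i1
      rw [cT] at t0 t1 hd
      rw [cT] at hd
      set N0 := cN ends S'
      set N1 := cN (gends ends c v) S'
      set U0 := c2 ends S' a b
      set U1 := c2 (gends ends c v) S' a b
      set Q0 := c2 ends S' b c
      set Q1 := c2 (gends ends c v) S' b c
      set P0 := c2 ends S' c a
      set P1 := c2 (gends ends c v) S' c a
      set S0 := c3 ends S' a b c
      set S1 := c3 (gends ends c v) S' a b c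
      have hid : (N0 - U0 - Q0 - P0 + 2 * S0) * (N1 - U1 - Q1 - P1 + 2 * S1) *
          dl (N0 + N1) (U0 + U1) (Q0 + Q1) (P0 + P1) (S0 + S1) =
          ((N0 - U0 - Q0 - P0 + 2 * S0) + (N1 - U1 - Q1 - P1 + 2 * S1)) *
            ((N1 - U1 - Q1 - P1 + 2 * S1) * dl N0 U0 Q0 P0 S0
              + (N0 - U0 - Q0 - P0 + 2 * S0) * dl N1 U1 Q1 P1 S1)
          + (((N0 - U0 - Q0 - P0 + 2 * S0) * (N1 - P1)
              - (N1 - U1 - Q1 - P1 + 2 * S1) * (N0 - P0)) *
            ((N0 - U0 - Q0 - P0 + 2 * S0) * (N1 - Q1)
              - (N1 - U1 - Q1 - P1 + 2 * S1) * (N0 - Q0))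
            - ((N0 - U0 - Q0 - P0 + 2 * S0) * (U1 - S1)
              - (N1 - U1 - Q1 - P1 + 2 * S1) * (U0 - S0)) ^ 2) := by
        simp only [dl]
        ring
      have hpos : 0 < (N0 - U0 - Q0 - P0 + 2 * S0) * (N1 - U1 - Q1 - P1 + 2 * S1) :=
        mul_pos t0 t1
      have hr : 0 ≤ (N0 - U0 - Q0 - P0 + 2 * S0) * (N1 - U1 - Q1 - P1 + 2 * S1) *
          dl (N0 + N1) (U0 + U1) (Q0 + Q1) (P0 + P1) (S0 + S1) := by
        rw [hid]
        have p1 : 0 ≤ (N1 - U1 - Q1 - P1 + 2 * S1) * dl N0 U0 Q0 P0 S0 :=
          mul_nonneg t1.le i0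
        have p2 : 0 ≤ (N0 - U0 - Q0 - P0 + 2 * S0) * dl N1 U1 Q1 P1 S1 :=
          mul_nonneg t0.le i1
        have p3 := mul_nonneg (add_pos t0 t1).le (add_nonneg p1 p2)
        linarith
      exact nonneg_of_mul_nonneg_right hr hpos
    · push Not at hex
      rw [dd_isolated ends S hbc hca hex]

/-- The three terminal inequality in terms of counts. -/
theorem three_terminals (ends : E → Sym2 V) (S : Finset E) {a b c : V} (hab : a ≠ b)
    (hbc : b ≠ c) (hca : c ≠ a) :
    c2 ends S a b * c2 ends S b c + c2 ends S b c * c2 ends S c a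
      + c2 ends S c a * c2 ends S a b + c3 ends S a b c ^ 2 ≤
    c3 ends S a b c * (cN ends S + c2 ends S a b + c2 ends S b c + c2 ends S c a) := by
  have h := dd_nonneg _ ends S rfl a b c hab hbc hca
  rw [dd, dl] at h
  linarith

end Pool.Agent.Lib.MP_d90615_co
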