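import Mathlib

/-!
Real algebra behind the three point inequality.
-/

namespace Pool.Agent.Lib.MP_d90615_co

lemma lead_nonneg (A B C : ℝ) (h : ∀ y : ℝ, 0 < y → 0 ≤ A * y ^ 2 + B * y + C) : 0 ≤ A := by
  by_contra hn
  push Not at hn
  have a1 := abs_nonneg B
  have a2 := abs_nonneg C
  have hy : 1 ≤ (|B| + |C| + 1) / (-A) + 1 := by
    have : 0 ≤ (|B| + |C| + 1) / (-A) := div_nonneg (by linarith) (by linarith)
    linarith
  set y := (|B| + |C| + 1) / (-A) + 1 with hyd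
  have h1 := h y (by linarith)
  have h2 : (-A) * y = |B| + |C| + 1 + (-A) := by
    rw [hyd, mul_add, mul_div_cancel₀ _ (by linarith : (-A) ≠ 0), mul_one]
  have h3 : B * y ≤ |B| * y := mul_le_mul_of_nonneg_right (le_abs_self _) (by linarith)
  have h4 : C ≤ |C| * y := (le_abs_self C).trans (le_mul_of_one_le_right a2 hy)
  have h5 : A * y ^ 2 = -(|B| + |C| + 1 + (-A)) * y := by
    rw [← h2]
    ring
  rw [h5] at h1
  nlinarith

lemma const_nonneg (A B C : ℝ) (h : ∀ y : ℝ, 0 < y → 0 ≤ A * y ^ 2 + B * y + C) : 0 ≤ C := by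
  refine lead_nonneg C B A fun y hy => ?_
  have h1 := h y⁻¹ (inv_pos.mpr hy)
  have h2 := mul_nonneg h1 (sq_nonneg y)
  have h3 : (A * y⁻¹ ^ 2 + B * y⁻¹ + C) * y ^ 2 = C * y ^ 2 + B * y + A := by
    field_simp
    ring
  linarith

/-- Real algebra: a quadratic form argument. -/
lemma quad_alg (m1 m2 m3 k d : ℝ) (hk : k ≤ 0)
    (h : ∀ u v w : ℝ, w ≠ 0 → 0 ≤ m1 * u ^ 2 + m2 * v ^ 2 + m3 * w ^ 2
      + 2 * k * (u * v + u * w + v * w) - 2 * d * w + (m1 * m2 - k ^ 2)) :
    d ^ 2 ≤ m1 * m2 * m3 + 2 * k ^ 3 - m1 * k ^ 2 - m2 * k ^ 2 - m3 * k ^ 2 := by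
  have hc : 0 ≤ m1 * m2 - k ^ 2 := by
    refine const_nonneg m3 (-2 * d) _ fun y hy => ?_
    have := h 0 0 y hy.ne'
    nlinarith
  rcases hc.lt_or_eq with hc | hc
  · have key : ∀ t : ℝ, 0 ≤ (m1 * m2 * m3 + 2 * k ^ 3 - m1 * k ^ 2 - m2 * k ^ 2 - m3 * k ^ 2)
        * (t * t) + (-2 * d) * t + 1 := by
      intro t
      rcases eq_or_ne t 0 with ht | ht
      · rw [ht]
        norm_num
      · have h1 := h (t * (k ^ 2 - m2 * k)) (t * (k ^ 2 - m1 * k)) (t * (m1 * m2 - k ^ 2))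
          (mul_ne_zero ht hc.ne')
        have h2 : 0 ≤ (m1 * m2 - k ^ 2) *
            ((m1 * m2 * m3 + 2 * k ^ 3 - m1 * k ^ 2 - m2 * k ^ 2 - m3 * k ^ 2)
              * (t * t) + (-2 * d) * t + 1) := by
          refine h1.trans (le_of_eq ?_)
          ring
        exact nonneg_of_mul_nonneg_right h2 hc
    have h3 := discrim_le_zero key
    rw [discrim] at h3
    nlinarith
  · have d1 : 0 ≤ -2 * d := by
      refine const_nonneg 0 m3 _ fun y hy => ?_
      have h1 := h 0 0 y hy.ne'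
      have h2 : 0 ≤ y * (m3 * y - 2 * d) := by nlinarith
      have := nonneg_of_mul_nonneg_right h2 hy
      linarith
    have d2 : 0 ≤ 2 * d := by
      refine const_nonneg 0 m3 _ fun y hy => ?_
      have h1 := h 0 0 (-y) (neg_ne_zero.mpr hy.ne')
      have h2 : 0 ≤ y * (m3 * y + 2 * d) := by nlinarith
      have := nonneg_of_mul_nonneg_right h2 hy
      linarith
    have hd : d = 0 := by linarith
    have hm1 : 0 ≤ m1 := by
      refine const_nonneg m3 (2 * k) _ fun y hy => ?_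
      have := h 1 0 y hy.ne'
      rw [hd] at this
      nlinarith
    have hk0 : k = 0 := by
      by_contra hne
      have hk' : k < 0 := lt_of_le_of_ne hk hne
      have hs : 0 < 2 * (k * (k - m1)) := by
        have := mul_pos_of_neg_of_neg hk' (by linarith : k - m1 < 0)
        linarith
      have h1 := h (k * (-(m3 + 1) / (2 * (k * (k - m1))))) (-m1 * (-(m3 + 1) / (2 * (k * (k - m1)))))
        1 one_ne_zero
      set τ := -(m3 + 1) / (2 * (k * (k - m1))) with hτ
      have h2 : 2 * (k * (k - m1)) * τ = -(m3 + 1) := by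
        rw [hτ, mul_div_cancel₀ _ hs.ne']
      have h3 : m1 * (k * τ) ^ 2 + m2 * (-m1 * τ) ^ 2 + m3 * 1 ^ 2
          + 2 * k * (k * τ * (-m1 * τ) + k * τ * 1 + -m1 * τ * 1) - 2 * d * 1
          + (m1 * m2 - k ^ 2) = m1 * τ ^ 2 * (m1 * m2 - k ^ 2) + m3 + 2 * (k * (k - m1)) * τ - 2 * d
          + (m1 * m2 - k ^ 2) := by
        ring
      rw [h3, h2, ← hc, hd] at h1
      linarith
    rw [hk0] at hc ⊢
    rw [hd]
    have : m1 * m2 = 0 := by linarith
    rw [this]
    norm_num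

/-- Real algebra: from the Rayleigh inequality at three terminals to the three point inequality. -/
lemma three_alg (N p q r T : ℝ) (hp0 : 0 < N - p - q - r + 2 * T)
    (hk : T ^ 2 - T * (N + p + q + r) + p * q + p * r + q * r ≤ 0)
    (h : ∀ x y z s : ℝ,
      (N * (1 + s) + 2 * (x * q + y * p) - (N - p) * y ^ 2 - (N - q) * x ^ 2
        + 2 * (T - r) * x * y + 2 * z * r - (N - r) * z ^ 2 - 2 * (T - r) * z * s
        + 2 * (T - q) * z * y + 2 * (T - p) * x * z
        + (N - p - q - r + 2 * T) * (2 * x * y * z - z ^ 2 * s)) *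
        ((N - r) + (N - p - q - r + 2 * T) * s) ≤
      (N + (N - q) * s - 2 * (T - p) * y - (N - p - q - r + 2 * T) * y ^ 2) *
        (N + (N - p) * s - 2 * (T - q) * x - (N - p - q - r + 2 * T) * x ^ 2)) :
    N * T ^ 2 ≤ p * q * r := by
  set P0 := N - p - q - r + 2 * T with hP0
  have hE : ∀ x y s : ℝ, (N - r) + P0 * s ≠ 0 →
      0 ≤ (N + (N - q) * s - 2 * (T - p) * y - P0 * y ^ 2) *
        (N + (N - p) * s - 2 * (T - q) * x - P0 * x ^ 2)
        - ((N - r) + P0 * s) * (N * (1 + s) + 2 * (x * q + y * p) - (N - p) * y ^ 2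
          - (N - q) * x ^ 2 + 2 * (T - r) * x * y)
        - (r - (T - r) * s + (T - q) * y + (T - p) * x + P0 * x * y) ^ 2 := by
    intro x y s hD
    have h1 := h x y ((r - (T - r) * s + (T - q) * y + (T - p) * x + P0 * x * y)
      / ((N - r) + P0 * s)) s
    set z := (r - (T - r) * s + (T - q) * y + (T - p) * x + P0 * x * y)
      / ((N - r) + P0 * s) with hz
    have h2 : ((N - r) + P0 * s) * z
        = r - (T - r) * s + (T - q) * y + (T - p) * x + P0 * x * y := by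
      rw [hz, mul_div_cancel₀ _ hD]
    have h3 : (N + (N - q) * s - 2 * (T - p) * y - P0 * y ^ 2) *
        (N + (N - p) * s - 2 * (T - q) * x - P0 * x ^ 2)
        - (N * (1 + s) + 2 * (x * q + y * p) - (N - p) * y ^ 2 - (N - q) * x ^ 2
        + 2 * (T - r) * x * y + 2 * z * r - (N - r) * z ^ 2 - 2 * (T - r) * z * s
        + 2 * (T - q) * z * y + 2 * (T - p) * x * z
        + P0 * (2 * x * y * z - z ^ 2 * s)) *
        ((N - r) + P0 * s) =
        ((N + (N - q) * s - 2 * (T - p) * y - P0 * y ^ 2) *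
        (N + (N - p) * s - 2 * (T - q) * x - P0 * x ^ 2)
        - ((N - r) + P0 * s) * (N * (1 + s) + 2 * (x * q + y * p) - (N - p) * y ^ 2
          - (N - q) * x ^ 2 + 2 * (T - r) * x * y)
        - (r - (T - r) * s + (T - q) * y + (T - p) * x + P0 * x * y) ^ 2)
        + (((N - r) + P0 * s) * z
          - (r - (T - r) * s + (T - q) * y + (T - p) * x + P0 * x * y)) ^ 2 := by
      ring
    rw [h2, sub_self] at h3
    linarith
  have hQ : ∀ u v w : ℝ, w ≠ 0 →
      0 ≤ (N * p + q * r - p ^ 2 - T ^ 2 + 2 * T * p - 2 * N * T) * u ^ 2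
        + (N * q + p * r - q ^ 2 - T ^ 2 + 2 * T * q - 2 * N * T) * v ^ 2
        + (N * r + p * q - r ^ 2 - T ^ 2 + 2 * T * r - 2 * N * T) * w ^ 2
        + 2 * (T ^ 2 - T * (N + p + q + r) + p * q + p * r + q * r) * (u * v + u * w + v * w)
        - 2 * (-N * T ^ 2 + N * p * q + N * p * r + N * q * r - N ^ 2 * T + 4 * T * p * q
          + 4 * T * p * r + T * p ^ 2 + 4 * T * q * r + T * q ^ 2 + T * r ^ 2 - 3 * T ^ 2 * p
          - 3 * T ^ 2 * q - 3 * T ^ 2 * r + 2 * T ^ 3 - 3 * p * q * r - p * q ^ 2 - p * r ^ 2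
          - p ^ 2 * q - p ^ 2 * r - q * r ^ 2 - q ^ 2 * r) * w
        + ((N * p + q * r - p ^ 2 - T ^ 2 + 2 * T * p - 2 * N * T) *
          (N * q + p * r - q ^ 2 - T ^ 2 + 2 * T * q - 2 * N * T)
          - (T ^ 2 - T * (N + p + q + r) + p * q + p * r + q * r) ^ 2) := by
    intro u v w hw
    have e1 : u = P0 * ((u - (T - q)) / P0) + (T - q) := by
      rw [mul_div_cancel₀ _ hp0.ne']
      ring
    have e2 : v = P0 * ((v - (T - p)) / P0) + (T - p) := by
      rw [mul_div_cancel₀ _ hp0.ne']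
      ring
    have e3 : w = P0 * ((w - (N - r)) / P0) + (N - r) := by
      rw [mul_div_cancel₀ _ hp0.ne']
      ring
    have h1 := hE ((u - (T - q)) / P0) ((v - (T - p)) / P0) ((w - (N - r)) / P0) (by
      intro h2
      apply hw
      rw [e3]
      linarith)
    set x := (u - (T - q)) / P0
    set y := (v - (T - p)) / P0
    set s := (w - (N - r)) / P0
    rw [e1, e2, e3]
    refine (mul_nonneg (sq_nonneg P0) h1).trans (le_of_eq ?_)
    rw [hP0]
    ring
  have hfin := quad_alg _ _ _ _ _ hk hQ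
  have hid : P0 ^ 3 * (p * q * r - N * T ^ 2) =
      (N * p + q * r - p ^ 2 - T ^ 2 + 2 * T * p - 2 * N * T) *
      (N * q + p * r - q ^ 2 - T ^ 2 + 2 * T * q - 2 * N * T) *
      (N * r + p * q - r ^ 2 - T ^ 2 + 2 * T * r - 2 * N * T)
      + 2 * (T ^ 2 - T * (N + p + q + r) + p * q + p * r + q * r) ^ 3
      - (N * p + q * r - p ^ 2 - T ^ 2 + 2 * T * p - 2 * N * T) *
        (T ^ 2 - T * (N + p + q + r) + p * q + p * r + q * r) ^ 2
      - (N * q + p * r - q ^ 2 - T ^ 2 + 2 * T * q - 2 * N * T) *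
        (T ^ 2 - T * (N + p + q + r) + p * q + p * r + q * r) ^ 2
      - (N * r + p * q - r ^ 2 - T ^ 2 + 2 * T * r - 2 * N * T) *
        (T ^ 2 - T * (N + p + q + r) + p * q + p * r + q * r) ^ 2
      - (-N * T ^ 2 + N * p * q + N * p * r + N * q * r - N ^ 2 * T + 4 * T * p * q
          + 4 * T * p * r + T * p ^ 2 + 4 * T * q * r + T * q ^ 2 + T * r ^ 2 - 3 * T ^ 2 * p
          - 3 * T ^ 2 * q - 3 * T ^ 2 * r + 2 * T ^ 3 - 3 * p * q * r - p * q ^ 2 - p * r ^ 2
          - p ^ 2 * q - p ^ 2 * r - q * r ^ 2 - q ^ 2 * r) ^ 2 := by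
    rw [hP0]
    ring
  have h5 : 0 ≤ P0 ^ 3 * (p * q * r - N * T ^ 2) := by
    rw [hid]
    linarith
  have h6 := nonneg_of_mul_nonneg_right h5 (pow_pos hp0 3)
  linarith

end Pool.Agent.Lib.MP_d90615_co
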