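import Pool.Agent.Lib.MP_d90615_co.CutD

/-!
The algebraic certificate for the constants `1` (different trees) and `17/20` (same tree).
-/

namespace Pool.Agent.Lib.MP_d90615_co

lemma certD (T P1 Q1 Z1 X P2 Q2 Z2 Y : ℝ) (hT : 0 ≤ T) (hP1 : 0 ≤ P1) (hQ1 : 0 ≤ Q1)
    (hZ1 : 0 ≤ Z1) (hX : 0 ≤ X) (hP2 : 0 ≤ P2) (hQ2 : 0 ≤ Q2) (hZ2 : 0 ≤ Z2) (hY : 0 ≤ Y)
    (K1 : 0 ≤ P2*(T + Q1) + Z2*(2*T + 2*Q1 + X) - (P1 + Z1)*(X + 2*Q2 + 2*Y) - P2*(Q2 + Y))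
    (K2 : 0 ≤ Q2*(T + P1) + Z2*(2*T + 2*P1 + X) - (Q1 + Z1)*(X + 2*P2 + 2*Y) - Q2*(P2 + Y))
    (M1 : 0 ≤ T*(P2 + Y) - P1*X) (M2 : 0 ≤ T*(Q2 + Y) - Q1*X)
    (M3 : 0 ≤ T*(P2 + Q2 + 2*Z1 + Y) - (P1 + Q1)*X - 2*P1*Q1)
    (R0 : 0 ≤ rayD (-4) (-1/20) T P1 Q1 Z1 X P2 Q2 Z2 Y)
    (S0 : 0 ≤ rayD (-1/20) (-4) T P1 Q1 Z1 X P2 Q2 Z2 Y)
    (R1 : 0 ≤ rayD (-5/4) (-1/5) T P1 Q1 Z1 X P2 Q2 Z2 Y)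
    (S1 : 0 ≤ rayD (-1/5) (-5/4) T P1 Q1 Z1 X P2 Q2 Z2 Y) :
    0 ≤ (T + P1 + Q1 + Z1 + X + P2 + Q2 + Z2 + Y) *
      (20*(T + X + Y + Q1 + Q2)*(T + X + Y + P1 + P2)
        - (T + P1 + Q1 + Z1 + X + P2 + Q2 + Z2 + Y)*(20*T + 17*X)) := by
  obtain ⟨k1, e1⟩ : ∃ k, k = P2*(T + Q1) + Z2*(2*T + 2*Q1 + X) - (P1 + Z1)*(X + 2*Q2 + 2*Y)
      - P2*(Q2 + Y) := ⟨_, rfl⟩
  obtain ⟨k2, e2⟩ : ∃ k, k = Q2*(T + P1) + Z2*(2*T + 2*P1 + X) - (Q1 + Z1)*(X + 2*P2 + 2*Y)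
      - Q2*(P2 + Y) := ⟨_, rfl⟩
  obtain ⟨m1, e3⟩ : ∃ k, k = T*(P2 + Y) - P1*X := ⟨_, rfl⟩
  obtain ⟨m2, e4⟩ : ∃ k, k = T*(Q2 + Y) - Q1*X := ⟨_, rfl⟩
  obtain ⟨m3, e5⟩ : ∃ k, k = T*(P2 + Q2 + 2*Z1 + Y) - (P1 + Q1)*X - 2*P1*Q1 := ⟨_, rfl⟩
  obtain ⟨r0, e6⟩ : ∃ k, k = rayD (-4) (-1/20) T P1 Q1 Z1 X P2 Q2 Z2 Y := ⟨_, rfl⟩
  obtain ⟨s0, e7⟩ : ∃ k, k = rayD (-1/20) (-4) T P1 Q1 Z1 X P2 Q2 Z2 Y := ⟨_, rfl⟩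
  obtain ⟨r1, e8⟩ : ∃ k, k = rayD (-5/4) (-1/5) T P1 Q1 Z1 X P2 Q2 Z2 Y := ⟨_, rfl⟩
  obtain ⟨s1, e9⟩ : ∃ k, k = rayD (-1/5) (-5/4) T P1 Q1 Z1 X P2 Q2 Z2 Y := ⟨_, rfl⟩
  rw [← e1] at K1
  rw [← e2] at K2
  rw [← e3] at M1
  rw [← e4] at M2
  rw [← e5] at M3
  rw [← e6] at R0
  rw [← e7] at S0
  rw [← e8] at R1
  rw [← e9] at S1
  have id : (T + P1 + Q1 + Z1 + X + P2 + Q2 + Z2 + Y) *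
      (20*(T + X + Y + Q1 + Q2)*(T + X + Y + P1 + P2)
        - (T + P1 + Q1 + Z1 + X + P2 + Q2 + Z2 + Y)*(20*T + 17*X)) =
      (83/12*P1*k1 + 5/2*P2*k1 + 47/12*T*k1 + 23/6*X*k1 + 5/2*Y*k1 + 83/12*Q1*k2 + 5/2*Q2*k2
       + 47/12*T*k2 + 23/6*X*k2 + 5/2*Y*k2 + 23/6*Q1*m1 + 2*Q2*m1 + 25/12*T*m1 + 7/3*X*m1
       + 11/12*Z1*m1)
      + (23/6*P1*m2 + 2*P2*m2 + 25/12*T*m2 + 7/3*X*m2 + 11/12*Z1*m2 + 169/96*P1*m3 + 4/3*P2*m3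
       + 169/96*Q1*m3 + 4/3*Q2*m3 + 1/24*T*m3 + 93/16*Z1*m3 + 47/6*Z2*m3 + 475/18144*P1*r0
       + 5/2016*P2*r0 + 785/18144*Q1*r0)
      + (65/2268*Q2*r0 + 1075/36288*T*r0 + 85/3024*X*r0 + 125/6048*Y*r0 + 1775/36288*Z1*r0
       + 295/36288*Z2*r0 + 3025/3456*P1*r1 + 25/24*P2*r1 + 325/864*T*r1 + 775/1728*X*r1
       + 25/72*Y*r1 + 1225/3456*Z1*r1 + 1775/3456*Z2*r1 + 785/18144*P1*s0 + 65/2268*P2*s0)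
      + (475/18144*Q1*s0 + 5/2016*Q2*s0 + 1075/36288*T*s0 + 85/3024*X*s0 + 125/6048*Y*s0
       + 1775/36288*Z1*s0 + 295/36288*Z2*s0 + 3025/3456*Q1*s1 + 25/24*Q2*s1 + 325/864*T*s1
       + 775/1728*X*s1 + 25/72*Y*s1 + 1225/3456*Z1*s1 + 1775/3456*Z2*s1 + 5/128*(T*T*X))
      + (17/576*(T*T*P2) + 17/576*(T*T*Q2) + 1/36*(T*T*Z2) + 13/288*(T*T*Y)
       + 69533/1451520*(T*P1*X) + 209/5760*(T*P1*P2) + 1471/45360*(T*P1*Q2) + 7/120*(T*P1*Z2)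
       + 14351/362880*(T*P1*Y) + 69533/1451520*(T*Q1*X) + 1471/45360*(T*Q1*P2)
       + 209/5760*(T*Q1*Q2) + 7/120*(T*Q1*Z2) + 14351/362880*(T*Q1*Y) + 1439/48384*(T*Z1*X))
      + (17/1152*(T*Z1*P2) + 17/1152*(T*Z1*Q2) + 139/72*(T*Z1*Z2) + 97/576*(T*Z1*Y)
       + 13/160*(T*X*X) + 982381/725760*(T*X*P2) + 982381/725760*(T*X*Q2)
       + 18773/48384*(T*X*Z2) + 539737/362880*(T*X*Y) + 125/72*(T*P2*P2)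
       + 75641/18144*(T*P2*Q2) + 173/1920*(T*P2*Z2) + 642931/90720*(T*P2*Y) + 125/72*(T*Q2*Q2)
       + 173/1920*(T*Q2*Z2))
      + (642931/90720*(T*Q2*Y) + 179/45*(T*Z2*Z2) + 187/2880*(T*Z2*Y) + 91517/18144*(T*Y*Y)
       + 184133/362880*(P1*P1*X) + 86183/90720*(P1*P1*Q2) + 86183/90720*(P1*P1*Y)
       + 5015/145152*(P1*Q1*X) + 42551/72576*(P1*Q1*P2) + 42551/72576*(P1*Q1*Q2)
       + 1/8*(P1*Q1*Z2) + 215/36288*(P1*Q1*Y) + 24485/290304*(P1*Z1*X) + 1949/72576*(P1*Z1*Q2)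
       + 1949/72576*(P1*Z1*Y))
      + (7111/96768*(P1*X*X) + 353/13440*(P1*X*P2) + 49939/1451520*(P1*X*Q2)
       + 299219/1451520*(P1*X*Z2) + 95693/483840*(P1*X*Y) + 277891/362880*(P1*P2*Q2)
       + 277891/362880*(P1*P2*Y) + 9431/2520*(P1*Q2*Q2) + 18587/362880*(P1*Q2*Z2)
       + 50593/13440*(P1*Q2*Y) + 18587/362880*(P1*Z2*Y) + 883/40320*(P1*Y*Y)
       + 184133/362880*(Q1*Q1*X) + 86183/90720*(Q1*Q1*P2) + 86183/90720*(Q1*Q1*Y))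
      + (24485/290304*(Q1*Z1*X) + 1949/72576*(Q1*Z1*P2) + 1949/72576*(Q1*Z1*Y)
       + 7111/96768*(Q1*X*X) + 49939/1451520*(Q1*X*P2) + 353/13440*(Q1*X*Q2)
       + 299219/1451520*(Q1*X*Z2) + 95693/483840*(Q1*X*Y) + 9431/2520*(Q1*P2*P2)
       + 277891/362880*(Q1*P2*Q2) + 18587/362880*(Q1*P2*Z2) + 50593/13440*(Q1*P2*Y)
       + 277891/362880*(Q1*Q2*Y) + 18587/362880*(Q1*Z2*Y) + 883/40320*(Q1*Y*Y))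
      + (127/1512*(Z1*Z1*X) + 5983/48384*(Z1*X*X) + 20609/290304*(Z1*X*P2)
       + 20609/290304*(Z1*X*Q2) + 7/216*(Z1*X*Z2) + 666737/145152*(Z1*X*Y)
       + 1349/36288*(Z1*P2*Q2) + 1349/36288*(Z1*P2*Y) + 1349/36288*(Z1*Q2*Y)
       + 1349/36288*(Z1*Y*Y) + 27/640*(X*X*X) + 326509/241920*(X*X*P2)
       + 326509/241920*(X*X*Q2) + 3079/16128*(X*X*Z2) + 185201/120960*(X*X*Y))
      + (442231/362880*(X*P2*P2) + 133103/30240*(X*P2*Q2) + 581323/290304*(X*P2*Z2)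
       + 50647/9072*(X*P2*Y) + 442231/362880*(X*Q2*Q2) + 581323/290304*(X*Q2*Z2)
       + 50647/9072*(X*Q2*Y) + 64/945*(X*Z2*Z2) + 3022151/725760*(X*Z2*Y) + 5689/2880*(X*Y*Y)
       + 106987/90720*(P2*P2*Q2) + 106987/90720*(P2*P2*Y) + 106987/90720*(P2*Q2*Q2)
       + 342707/181440*(P2*Q2*Z2) + 45313/11340*(P2*Q2*Y))
      + (342707/181440*(P2*Z2*Y) + 255517/90720*(P2*Y*Y) + 106987/90720*(Q2*Q2*Y)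
       + 342707/181440*(Q2*Z2*Y) + 255517/90720*(Q2*Y*Y) + 342707/181440*(Z2*Y*Y)
       + 4951/3024*(Y*Y*Y)) := by
    rw [e1, e2, e3, e4, e5, e6, e7, e8, e9]
    unfold rayD
    ring
  rw [id]
  positivity

end Pool.Agent.Lib.MP_d90615_co
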