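import Pool.Agent.Lib.MP_d90615_co.Tenth

/-!
The forest sum of four terminals at `x u₁u₁ᵀ + y u₂u₂ᵀ + t vvᵀ + r wwᵀ`, where `u₁ = (1,1,0,0)`,
`u₂ = (0,0,1,1)`, `v = (1,-1,0,0)`, `w = (0,0,1,-1)`, and the Rayleigh inequality it satisfies.
-/

namespace Pool.Agent.Lib.MP_d90615_co

open Matrix Finset
open scoped Classical

variable {V E : Type*}

/-- `x u₁u₁ᵀ + y u₂u₂ᵀ + t vvᵀ + r wwᵀ`. -/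
def aD (x y t r : ℝ) : Matrix (Fin 4) (Fin 4) ℝ :=
  !![x + t, x - t, 0, 0;
     x - t, x + t, 0, 0;
     0, 0, y + r, y - r;
     0, 0, y - r, y + r]

lemma aD_symm (x y t r : ℝ) : (aD x y t r).IsSymm := by
  ext i j
  fin_cases i <;> fin_cases j <;> simp [aD]

lemma aD_add1 (x y r : ℝ) :
    aD x y 0 r + vecMulVec ![1, -1, 0, 0] ![1, -1, 0, 0] = aD x y 1 r := by
  ext i j
  fin_cases i <;> fin_cases j <;> simp [aD, vecMulVec_apply] <;> ring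

lemma aD_add2 (x y t : ℝ) :
    aD x y t 0 + vecMulVec ![0, 0, 1, -1] ![0, 0, 1, -1] = aD x y t 1 := by
  ext i j
  fin_cases i <;> fin_cases j <;> simp [aD, vecMulVec_apply] <;> ring

lemma dD0 (x y t r : ℝ) : (1 + (!![1,1,1,1; 1,1,1,1; 1,1,1,1; 1,1,1,1] : Matrix (Fin 4) (Fin 4) ℝ) * aD x y t r).det =
    1 + 4*x + 4*y := by
  simp [aD, Matrix.det_succ_row_zero, Fin.sum_univ_succ, Fin.succAbove, Matrix.one_apply]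
  ring

lemma dD1 (x y t r : ℝ) : (1 + (!![1,1,1,0; 1,1,1,0; 1,1,1,0; 0,0,0,1] : Matrix (Fin 4) (Fin 4) ℝ) * aD x y t r).det =
    1 + 4*x + 2*y + 4*x*y + 2*r + 4*x*r + 4*y*r := by
  simp [aD, Matrix.det_succ_row_zero, Fin.sum_univ_succ, Fin.succAbove, Matrix.one_apply]
  ring

lemma dD2 (x y t r : ℝ) : (1 + (!![1,1,0,1; 1,1,0,1; 0,0,1,0; 1,1,0,1] : Matrix (Fin 4) (Fin 4) ℝ) * aD x y t r).det =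
    1 + 4*x + 2*y + 4*x*y + 2*r + 4*x*r + 4*y*r := by
  simp [aD, Matrix.det_succ_row_zero, Fin.sum_univ_succ, Fin.succAbove, Matrix.one_apply]
  ring

lemma dD3 (x y t r : ℝ) : (1 + (!![1,1,0,0; 1,1,0,0; 0,0,1,1; 0,0,1,1] : Matrix (Fin 4) (Fin 4) ℝ) * aD x y t r).det =
    1 + 4*x + 4*y + 16*x*y := by
  simp [aD, Matrix.det_succ_row_zero, Fin.sum_univ_succ, Fin.succAbove, Matrix.one_apply]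
  ring

lemma dD4 (x y t r : ℝ) : (1 + (!![1,1,0,0; 1,1,0,0; 0,0,1,0; 0,0,0,1] : Matrix (Fin 4) (Fin 4) ℝ) * aD x y t r).det =
    1 + 4*x + 2*y + 8*x*y + 2*r + 8*x*r + 4*y*r + 16*x*y*r := by
  simp [aD, Matrix.det_succ_row_zero, Fin.sum_univ_succ, Fin.succAbove, Matrix.one_apply]
  ring

lemma dD5 (x y t r : ℝ) : (1 + (!![1,0,1,1; 0,1,0,0; 1,0,1,1; 1,0,1,1] : Matrix (Fin 4) (Fin 4) ℝ) * aD x y t r).det =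
    1 + 2*x + 4*y + 4*x*y + 2*t + 4*x*t + 4*y*t := by
  simp [aD, Matrix.det_succ_row_zero, Fin.sum_univ_succ, Fin.succAbove, Matrix.one_apply]
  ring

lemma dD6 (x y t r : ℝ) : (1 + (!![1,0,1,0; 0,1,0,1; 1,0,1,0; 0,1,0,1] : Matrix (Fin 4) (Fin 4) ℝ) * aD x y t r).det =
    1 + 2*x + 2*y + 2*t + 4*x*t + 4*y*t + 2*r + 4*x*r + 4*y*r := by
  simp [aD, Matrix.det_succ_row_zero, Fin.sum_univ_succ, Fin.succAbove, Matrix.one_apply]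
  ring

lemma dD7 (x y t r : ℝ) : (1 + (!![1,0,1,0; 0,1,0,0; 1,0,1,0; 0,0,0,1] : Matrix (Fin 4) (Fin 4) ℝ) * aD x y t r).det =
    1 + 2*x + 2*y + 3*x*y + 2*t + 4*x*t + 3*y*t + 4*x*y*t + 2*r + 3*x*r + 4*y*r + 4*x*y*r + 3*t*r + 4*x*t*r + 4*y*t*r := by
  simp [aD, Matrix.det_succ_row_zero, Fin.sum_univ_succ, Fin.succAbove, Matrix.one_apply]
  ring

lemma dD8 (x y t r : ℝ) : (1 + (!![1,0,0,1; 0,1,1,0; 0,1,1,0; 1,0,0,1] : Matrix (Fin 4) (Fin 4) ℝ) * aD x y t r).det =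
    1 + 2*x + 2*y + 2*t + 4*x*t + 4*y*t + 2*r + 4*x*r + 4*y*r := by
  simp [aD, Matrix.det_succ_row_zero, Fin.sum_univ_succ, Fin.succAbove, Matrix.one_apply]
  ring

lemma dD9 (x y t r : ℝ) : (1 + (!![1,0,0,0; 0,1,1,1; 0,1,1,1; 0,1,1,1] : Matrix (Fin 4) (Fin 4) ℝ) * aD x y t r).det =
    1 + 2*x + 4*y + 4*x*y + 2*t + 4*x*t + 4*y*t := by
  simp [aD, Matrix.det_succ_row_zero, Fin.sum_univ_succ, Fin.succAbove, Matrix.one_apply]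
  ring

lemma dD10 (x y t r : ℝ) : (1 + (!![1,0,0,0; 0,1,1,0; 0,1,1,0; 0,0,0,1] : Matrix (Fin 4) (Fin 4) ℝ) * aD x y t r).det =
    1 + 2*x + 2*y + 3*x*y + 2*t + 4*x*t + 3*y*t + 4*x*y*t + 2*r + 3*x*r + 4*y*r + 4*x*y*r + 3*t*r + 4*x*t*r + 4*y*t*r := by
  simp [aD, Matrix.det_succ_row_zero, Fin.sum_univ_succ, Fin.succAbove, Matrix.one_apply]
  ring

lemma dD11 (x y t r : ℝ) : (1 + (!![1,0,0,1; 0,1,0,0; 0,0,1,0; 1,0,0,1] : Matrix (Fin 4) (Fin 4) ℝ) * aD x y t r).det =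
    1 + 2*x + 2*y + 3*x*y + 2*t + 4*x*t + 3*y*t + 4*x*y*t + 2*r + 3*x*r + 4*y*r + 4*x*y*r + 3*t*r + 4*x*t*r + 4*y*t*r := by
  simp [aD, Matrix.det_succ_row_zero, Fin.sum_univ_succ, Fin.succAbove, Matrix.one_apply]
  ring

lemma dD12 (x y t r : ℝ) : (1 + (!![1,0,0,0; 0,1,0,1; 0,0,1,0; 0,1,0,1] : Matrix (Fin 4) (Fin 4) ℝ) * aD x y t r).det =
    1 + 2*x + 2*y + 3*x*y + 2*t + 4*x*t + 3*y*t + 4*x*y*t + 2*r + 3*x*r + 4*y*r + 4*x*y*r + 3*t*r + 4*x*t*r + 4*y*t*r := by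
  simp [aD, Matrix.det_succ_row_zero, Fin.sum_univ_succ, Fin.succAbove, Matrix.one_apply]
  ring

lemma dD13 (x y t r : ℝ) : (1 + (!![1,0,0,0; 0,1,0,0; 0,0,1,1; 0,0,1,1] : Matrix (Fin 4) (Fin 4) ℝ) * aD x y t r).det =
    1 + 2*x + 4*y + 8*x*y + 2*t + 4*x*t + 8*y*t + 16*x*y*t := by
  simp [aD, Matrix.det_succ_row_zero, Fin.sum_univ_succ, Fin.succAbove, Matrix.one_apply]
  ring

lemma dD14 (x y t r : ℝ) : (1 + (!![1,0,0,0; 0,1,0,0; 0,0,1,0; 0,0,0,1] : Matrix (Fin 4) (Fin 4) ℝ) * aD x y t r).det =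
    1 + 2*x + 2*y + 4*x*y + 2*t + 4*x*t + 4*y*t + 8*x*y*t + 2*r + 4*x*r + 4*y*r + 8*x*y*r + 4*t*r + 8*x*t*r + 8*y*t*r + 16*x*y*t*r := by
  simp [aD, Matrix.det_succ_row_zero, Fin.sum_univ_succ, Fin.succAbove, Matrix.one_apply]
  ring

lemma RT_aD (ends : E → Sym2 V) (S : Finset E) (a b c d : V) (x y t r : ℝ) :
    RT ends S ![a, b, c, d] (aD x y t r) =
    xb ends S a b c d true true true true true true * (1 + 4*x + 4*y) +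
      xb ends S a b c d true true false true false false * (1 + 4*x + 2*y + 4*x*y + 2*r + 4*x*r + 4*y*r) +
      xb ends S a b c d true false true false true false * (1 + 4*x + 2*y + 4*x*y + 2*r + 4*x*r + 4*y*r) +
      xb ends S a b c d true false false false false true * (1 + 4*x + 4*y + 16*x*y) +
      xb ends S a b c d true false false false false false * (1 + 4*x + 2*y + 8*x*y + 2*r + 8*x*r + 4*y*r + 16*x*y*r) +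
      xb ends S a b c d false true true false false true * (1 + 2*x + 4*y + 4*x*y + 2*t + 4*x*t + 4*y*t) +
      xb ends S a b c d false true false false true false * (1 + 2*x + 2*y + 2*t + 4*x*t + 4*y*t + 2*r + 4*x*r + 4*y*r) +
      xb ends S a b c d false true false false false false * (1 + 2*x + 2*y + 3*x*y + 2*t + 4*x*t + 3*y*t + 4*x*y*t + 2*r + 3*x*r + 4*y*r + 4*x*y*r + 3*t*r + 4*x*t*r + 4*y*t*r) +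
      xb ends S a b c d false false true true false false * (1 + 2*x + 2*y + 2*t + 4*x*t + 4*y*t + 2*r + 4*x*r + 4*y*r) +
      xb ends S a b c d false false false true true true * (1 + 2*x + 4*y + 4*x*y + 2*t + 4*x*t + 4*y*t) +
      xb ends S a b c d false false false true false false * (1 + 2*x + 2*y + 3*x*y + 2*t + 4*x*t + 3*y*t + 4*x*y*t + 2*r + 3*x*r + 4*y*r + 4*x*y*r + 3*t*r + 4*x*t*r + 4*y*t*r) +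
      xb ends S a b c d false false true false false false * (1 + 2*x + 2*y + 3*x*y + 2*t + 4*x*t + 3*y*t + 4*x*y*t + 2*r + 3*x*r + 4*y*r + 4*x*y*r + 3*t*r + 4*x*t*r + 4*y*t*r) +
      xb ends S a b c d false false false false true false * (1 + 2*x + 2*y + 3*x*y + 2*t + 4*x*t + 3*y*t + 4*x*y*t + 2*r + 3*x*r + 4*y*r + 4*x*y*r + 3*t*r + 4*x*t*r + 4*y*t*r) +
      xb ends S a b c d false false false false false true * (1 + 2*x + 4*y + 8*x*y + 2*t + 4*x*t + 8*y*t + 16*x*y*t) +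
      xb ends S a b c d false false false false false false * (1 + 2*x + 2*y + 4*x*y + 2*t + 4*x*t + 4*y*t + 8*x*y*t + 2*r + 4*x*r + 4*y*r + 8*x*y*r + 4*t*r + 8*x*t*r + 8*y*t*r + 16*x*y*t*r) := by
  have h := expand ends S a b c d (fun p q s u k l =>
    (1 + (!![1,p,q,s; p,1,u,k; q,u,1,l; s,k,l,1] : Matrix (Fin 4) (Fin 4) ℝ)
      * aD x y t r).det)
  rw [dD0, dD1, dD2, dD3, dD4, dD5, dD6, dD7, dD8, dD9, dD10, dD11, dD12, dD13, dD14] at h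
  rw [RT, ← h]
  refine Finset.sum_congr rfl fun F _ => ?_
  rw [CM4]

/-- The Rayleigh difference at `x u₁u₁ᵀ + y u₂u₂ᵀ` in the nine aggregated pattern counts. -/
def rayD (x y T P1 Q1 Z1 X P2 Q2 Z2 Y : ℝ) : ℝ :=
  (T*(2 + 4*x + 4*y + 8*x*y) + Q1*(2 + 4*x + 8*y + 16*x*y) + X*(2 + 4*x + 3*y + 4*x*y)
       + Q2*(2 + 4*x + 4*y) + Y*(2 + 4*x + 4*y))
    * (T*(2 + 4*x + 4*y + 8*x*y) + P1*(2 + 8*x + 4*y + 16*x*y) + X*(2 + 3*x + 4*y + 4*x*y)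
       + P2*(2 + 4*x + 4*y) + Y*(2 + 4*x + 4*y))
  - (T*(1 + 2*x + 2*y + 4*x*y) + P1*(1 + 4*x + 2*y + 8*x*y) + Q1*(1 + 2*x + 4*y + 8*x*y)
       + Z1*(1 + 4*x + 4*y + 16*x*y) + X*(1 + 2*x + 2*y + 3*x*y)
       + P2*(1 + 4*x + 2*y + 4*x*y) + Q2*(1 + 2*x + 4*y + 4*x*y) + Z2*(1 + 4*x + 4*y)
       + Y*(1 + 2*x + 2*y))
    * (T*(4 + 8*x + 8*y + 16*x*y) + X*(3 + 4*x + 4*y))

lemma rayD_of (x y x_abcd x_abc x_abd x_abcd2 x_ab x_acd x_acbd x_ac x_adbc x_bcd x_bc x_ad x_bd x_cd x_e : ℝ)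
    (h : (x_abcd * (1 + 4*x + 4*y) + x_abc * (1 + 4*x + 2*y + 4*x*y + 2*0 + 4*x*0 + 4*y*0) + x_abd * (1 + 4*x + 2*y + 4*x*y + 2*0 + 4*x*0 + 4*y*0) + x_abcd2 * (1 + 4*x + 4*y + 16*x*y) + x_ab * (1 + 4*x + 2*y + 8*x*y + 2*0 + 8*x*0 + 4*y*0 + 16*x*y*0) + x_acd * (1 + 2*x + 4*y + 4*x*y + 2*0 + 4*x*0 + 4*y*0) + x_acbd * (1 + 2*x + 2*y + 2*0 + 4*x*0 + 4*y*0 + 2*0 + 4*x*0 + 4*y*0) + x_ac * (1 + 2*x + 2*y + 3*x*y + 2*0 + 4*x*0 + 3*y*0 + 4*x*y*0 + 2*0 + 3*x*0 + 4*y*0 + 4*x*y*0 + 3*0*0 + 4*x*0*0 + 4*y*0*0) + x_adbc * (1 + 2*x + 2*y + 2*0 + 4*x*0 + 4*y*0 + 2*0 + 4*x*0 + 4*y*0) + x_bcd * (1 + 2*x + 4*y + 4*x*y + 2*0 + 4*x*0 + 4*y*0) + x_bc * (1 + 2*x + 2*y + 3*x*y + 2*0 + 4*x*0 + 3*y*0 + 4*x*y*0 + 2*0 + 3*x*0 + 4*y*0 + 4*x*y*0 + 3*0*0 + 4*x*0*0 + 4*y*0*0) + x_ad * (1 + 2*x + 2*y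 + 3*x*y + 2*0 + 4*x*0 + 3*y*0 + 4*x*y*0 + 2*0 + 3*x*0 + 4*y*0 + 4*x*y*0 + 3*0*0 + 4*x*0*0 + 4*y*0*0) + x_bd * (1 + 2*x + 2*y + 3*x*y + 2*0 + 4*x*0 + 3*y*0 + 4*x*y*0 + 2*0 + 3*x*0 + 4*y*0 + 4*x*y*0 + 3*0*0 + 4*x*0*0 + 4*y*0*0) + x_cd * (1 + 2*x + 4*y + 8*x*y + 2*0 + 4*x*0 + 8*y*0 + 16*x*y*0) + x_e * (1 + 2*x + 2*y + 4*x*y + 2*0 + 4*x*0 + 4*y*0 + 8*x*y*0 + 2*0 + 4*x*0 + 4*y*0 + 8*x*y*0 + 4*0*0 + 8*x*0*0 + 8*y*0*0 + 16*x*y*0*0)) * (x_abcd * (1 + 4*x + 4*y) + x_abc * (1 + 4*x + 2*y + 4*x*y + 2*1 + 4*x*1 + 4*y*1) + x_abd * (1 + 4*x + 2*y + 4*x*y + 2*1 + 4*x*1 + 4*y*1) + x_abcd2 * (1 + 4*x + 4*y + 16*x*y) + x_ab * (1 + 4*x + 2*y + 8*x*y + 2*1 + 8*x*1 + 4*y*1 + 16*x*y*1) + x_acd * (1 + 2*x + 4*y + 4*x*y + 2*1 + 4*x*1 + 4*y*1) + x_acbd * (1 + 2*x + 2*y + 2*1 + 4*x*1 + 4*y*1 +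 2*1 + 4*x*1 + 4*y*1) + x_ac * (1 + 2*x + 2*y + 3*x*y + 2*1 + 4*x*1 + 3*y*1 + 4*x*y*1 + 2*1 + 3*x*1 + 4*y*1 + 4*x*y*1 + 3*1*1 + 4*x*1*1 + 4*y*1*1) + x_adbc * (1 + 2*x + 2*y + 2*1 + 4*x*1 + 4*y*1 + 2*1 + 4*x*1 + 4*y*1) + x_bcd * (1 + 2*x + 4*y + 4*x*y + 2*1 + 4*x*1 + 4*y*1) + x_bc * (1 + 2*x + 2*y + 3*x*y + 2*1 + 4*x*1 + 3*y*1 + 4*x*y*1 + 2*1 + 3*x*1 + 4*y*1 + 4*x*y*1 + 3*1*1 + 4*x*1*1 + 4*y*1*1) + x_ad * (1 + 2*x + 2*y + 3*x*y + 2*1 + 4*x*1 + 3*y*1 + 4*x*y*1 + 2*1 + 3*x*1 + 4*y*1 + 4*x*y*1 + 3*1*1 + 4*x*1*1 + 4*y*1*1) + x_bd * (1 + 2*x + 2*y + 3*x*y + 2*1 + 4*x*1 + 3*y*1 + 4*x*y*1 + 2*1 + 3*x*1 + 4*y*1 + 4*x*y*1 + 3*1*1 + 4*x*1*1 + 4*y*1*1) + x_cd * (1 + 2*x + 4*y + 8*x*y + 2*1 + 4*x*1 + 8*y*1 + 16*x*y*1) + x_e * (1 + 2*x + 2*y + 4*x*y + 2*1 + 4*x*1 + 4*y*1 + 8*x*y*1 +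 2*1 + 4*x*1 + 4*y*1 + 8*x*y*1 + 4*1*1 + 8*x*1*1 + 8*y*1*1 + 16*x*y*1*1)) ≤
      (x_abcd * (1 + 4*x + 4*y) + x_abc * (1 + 4*x + 2*y + 4*x*y + 2*0 + 4*x*0 + 4*y*0) + x_abd * (1 + 4*x + 2*y + 4*x*y + 2*0 + 4*x*0 + 4*y*0) + x_abcd2 * (1 + 4*x + 4*y + 16*x*y) + x_ab * (1 + 4*x + 2*y + 8*x*y + 2*0 + 8*x*0 + 4*y*0 + 16*x*y*0) + x_acd * (1 + 2*x + 4*y + 4*x*y + 2*1 + 4*x*1 + 4*y*1) + x_acbd * (1 + 2*x + 2*y + 2*1 + 4*x*1 + 4*y*1 + 2*0 + 4*x*0 + 4*y*0) + x_ac * (1 + 2*x + 2*y + 3*x*y + 2*1 + 4*x*1 + 3*y*1 + 4*x*y*1 + 2*0 + 3*x*0 + 4*y*0 + 4*x*y*0 + 3*1*0 + 4*x*1*0 + 4*y*1*0) + x_adbc * (1 + 2*x + 2*y + 2*1 + 4*x*1 + 4*y*1 + 2*0 + 4*x*0 + 4*y*0) + x_bcd * (1 + 2*x + 4*y + 4*x*y + 2*1 + 4*x*1 + 4*y*1) + x_bc * (1 + 2*x + 2*y + 3*x*y + 2*1 + 4*x*1 + 3*y*1 + 4*x*y*1 + 2*0 + 3*x*0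 + 4*y*0 + 4*x*y*0 + 3*1*0 + 4*x*1*0 + 4*y*1*0) + x_ad * (1 + 2*x + 2*y + 3*x*y + 2*1 + 4*x*1 + 3*y*1 + 4*x*y*1 + 2*0 + 3*x*0 + 4*y*0 + 4*x*y*0 + 3*1*0 + 4*x*1*0 + 4*y*1*0) + x_bd * (1 + 2*x + 2*y + 3*x*y + 2*1 + 4*x*1 + 3*y*1 + 4*x*y*1 + 2*0 + 3*x*0 + 4*y*0 + 4*x*y*0 + 3*1*0 + 4*x*1*0 + 4*y*1*0) + x_cd * (1 + 2*x + 4*y + 8*x*y + 2*1 + 4*x*1 + 8*y*1 + 16*x*y*1) + x_e * (1 + 2*x + 2*y + 4*x*y + 2*1 + 4*x*1 + 4*y*1 + 8*x*y*1 + 2*0 + 4*x*0 + 4*y*0 + 8*x*y*0 + 4*1*0 + 8*x*1*0 + 8*y*1*0 + 16*x*y*1*0)) * (x_abcd * (1 + 4*x + 4*y) + x_abc * (1 + 4*x + 2*y + 4*x*y + 2*1 + 4*x*1 + 4*y*1) + x_abd * (1 + 4*x + 2*y + 4*x*y + 2*1 + 4*x*1 + 4*y*1) + x_abcd2 * (1 + 4*x + 4*y + 16*x*y) + x_ab * (1 + 4*x + 2*y + 8*x*y + 2*1 + 8*x*1 + 4*y*1 + 16*x*y*1) + x_acd * (1 + 2*x + 4*y + 4*x*y +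 2*0 + 4*x*0 + 4*y*0) + x_acbd * (1 + 2*x + 2*y + 2*0 + 4*x*0 + 4*y*0 + 2*1 + 4*x*1 + 4*y*1) + x_ac * (1 + 2*x + 2*y + 3*x*y + 2*0 + 4*x*0 + 3*y*0 + 4*x*y*0 + 2*1 + 3*x*1 + 4*y*1 + 4*x*y*1 + 3*0*1 + 4*x*0*1 + 4*y*0*1) + x_adbc * (1 + 2*x + 2*y + 2*0 + 4*x*0 + 4*y*0 + 2*1 + 4*x*1 + 4*y*1) + x_bcd * (1 + 2*x + 4*y + 4*x*y + 2*0 + 4*x*0 + 4*y*0) + x_bc * (1 + 2*x + 2*y + 3*x*y + 2*0 + 4*x*0 + 3*y*0 + 4*x*y*0 + 2*1 + 3*x*1 + 4*y*1 + 4*x*y*1 + 3*0*1 + 4*x*0*1 + 4*y*0*1) + x_ad * (1 + 2*x + 2*y + 3*x*y + 2*0 + 4*x*0 + 3*y*0 + 4*x*y*0 + 2*1 + 3*x*1 + 4*y*1 + 4*x*y*1 + 3*0*1 + 4*x*0*1 + 4*y*0*1) + x_bd * (1 + 2*x + 2*y + 3*x*y + 2*0 + 4*x*0 + 3*y*0 + 4*x*y*0 + 2*1 + 3*x*1 + 4*y*1 + 4*x*y*1 + 3*0*1 + 4*x*0*1 + 4*y*0*1) + x_cd * (1 + 2*x + 4*y + 8*x*y + 2*0 + 4*x*0 + 8*y*0 + 16*x*y*0)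 + x_e * (1 + 2*x + 2*y + 4*x*y + 2*0 + 4*x*0 + 4*y*0 + 8*x*y*0 + 2*1 + 4*x*1 + 4*y*1 + 8*x*y*1 + 4*0*1 + 8*x*0*1 + 8*y*0*1 + 16*x*y*0*1))) :
    0 ≤ rayD x y (x_e) (x_ab) (x_cd) (x_abcd2) (x_ac + x_ad + x_bc + x_bd) (x_abc + x_abd) (x_acd + x_bcd) (x_abcd) (x_acbd + x_adbc) := by
  refine le_of_le_of_eq (sub_nonneg.mpr h) ?_
  rw [rayD]
  ring

lemma rayD_nonneg [Fintype V] (ends : E → Sym2 V) (S : Finset E) (a b c d : V) (x y : ℝ) :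
    0 ≤ rayD x y (gT ends S a b c d) (gP1 ends S a b c d) (gQ1 ends S a b c d) (gZ1 ends S a b c d) (gX ends S a b c d) (gP2 ends S a b c d) (gQ2 ends S a b c d) (gZ2 ends S a b c d) (gY ends S a b c d) := by
  have h := rayleighT ends S ![a, b, c, d] (aD x y 0 0) (aD_symm _ _ _ _) ![1, -1, 0, 0]
    ![0, 0, 1, -1]
  rw [aD_add1, aD_add2, aD_add2, RT_aD, RT_aD, RT_aD, RT_aD] at h
  unfold gT gP1 gQ1 gZ1 gX gP2 gQ2 gZ2 gY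
  exact rayD_of x y _ _ _ _ _ _ _ _ _ _ _ _ _ _ _ h

end Pool.Agent.Lib.MP_d90615_co
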