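import Pool.Agent.Lib.MP_d90615_co.Graph

/-!
The bridge definition of a forest agrees with the literal one: no cycle.
-/

namespace Pool.Agent.Lib.MP_d90615_co

open Finset

variable {V E : Type*}

/-- `F` contains a cycle: for some `k = n + 2 ≥ 2` there are distinct vertices
`v 0, …, v (k-1)` and distinct edges `c 0, …, c (k-1)` of `F` such that `c i` joins `v i` and
`v (i+1)` (indices modulo `k`). -/
def HasCycle (ends : E → Sym2 V) (F : Finset E) : Prop :=
  ∃ (n : ℕ) (v : Fin (n + 2) → V) (c : Fin (n + 2) → E),
    Function.Injective v ∧ Function.Injective c ∧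
      ∀ i, c i ∈ F ∧ ends (c i) = s(v i, v (i + 1))

variable [DecidableEq E]

lemma not_forest_of_hasCycle {ends : E → Sym2 V} {F : Finset E} (h : HasCycle ends F) :
    ¬ Forest ends F := by
  obtain ⟨n, v, c, hv, hc, h⟩ := h
  intro hF
  refine hF (c 0) (h 0).1 (v 0) (v (0 + 1)) (h 0).2 ?_
  have key : ∀ (m : ℕ) (hm : m < n + 2), Conn ends (F.erase (c 0)) (v 1) (v (⟨m, hm⟩ + 1)) := by
    intro m
    induction m with
    | zero =>
      intro hm
      have h0 : (⟨0, hm⟩ + 1 : Fin (n + 2)) = 1 := by
        have : (⟨0, hm⟩ : Fin (n + 2)) = 0 := rfl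
        rw [this, zero_add]
      rw [h0]
      exact Conn.refl _ _ _
    | succ m ih =>
      intro hm
      have h1 := ih (by omega)
      have h2 : (⟨m, by omega⟩ + 1 : Fin (n + 2)) = ⟨m + 1, hm⟩ := by
        apply Fin.ext
        rw [Fin.val_add_one_of_lt]
        rw [Fin.lt_def]
        simp
        omega
      rw [h2] at h1
      refine h1.trans (Conn.single (e := c ⟨m + 1, hm⟩) ?_ (h _).2)
      rw [Finset.mem_erase]
      refine ⟨?_, (h _).1⟩
      intro h3
      have h4 := congrArg Fin.val (hc h3)
      simp at h4
  have h1 := key (n + 1) (by omega)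
  have h2 : (⟨n + 1, by omega⟩ + 1 : Fin (n + 2)) = 0 := Fin.last_add_one (n + 1)
  rw [h2] at h1
  simpa using h1.symm

lemma hasCycle_of_not_forest {ends : E → Sym2 V} (hloop : ∀ e, ¬ (ends e).IsDiag)
    {F : Finset E} (h : ¬ Forest ends F) : HasCycle ends F := by
  classical
  unfold Forest at h
  push Not at h
  obtain ⟨e, he, a, b, hab, hcon⟩ := h
  have hne : a ≠ b := by
    intro h
    apply hloop e
    rw [hab, h]
    simp
  -- the simple graph of `F.erase e`
  let G : SimpleGraph V :=
    { Adj := fun x y => x ≠ y ∧ ∃ f ∈ F.erase e, ends f = s(x, y)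
      symm := ⟨by
        rintro x y ⟨h1, f, hf, h2⟩
        exact ⟨h1.symm, f, hf, by rw [h2, Sym2.eq_swap]⟩⟩
      loopless := ⟨fun x h => h.1 rfl⟩ }
  have hreach : G.Reachable b a := by
    have : ∀ y, Conn ends (F.erase e) a y → G.Reachable y a := by
      intro y hy
      induction hy with
      | refl => exact SimpleGraph.Reachable.refl _
      | @tail x y _ hxy ih =>
        by_cases hxy' : x = y
        · subst hxy'; exact ih
        · have : G.Adj y x := by
            obtain ⟨f, hf, h2⟩ := hxy
            exact ⟨fun h => hxy' h.symm, f, hf, by rw [h2, Sym2.eq_swap]⟩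
          exact this.reachable.trans ih
    exact this b hcon
  obtain ⟨p, hp⟩ := hreach.exists_isPath
  -- length at least one
  have hlen : p.length ≠ 0 := by
    intro h0
    exact hne (SimpleGraph.Walk.eq_of_length_eq_zero h0).symm
  obtain ⟨n, hn⟩ := Nat.exists_eq_succ_of_ne_zero hlen
  have hadj : ∀ i : ℕ, i < n + 1 → G.Adj (p.getVert i) (p.getVert (i + 1)) := by
    intro i hi
    exact p.adj_getVert_succ (by omega)
  have hinj : ∀ i j : ℕ, i ≤ n + 1 → j ≤ n + 1 → p.getVert i = p.getVert j → i = j := by
    intro i j hi hj hij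
    exact hp.getVert_injOn (by simp; omega) (by simp; omega) hij
  have : Nonempty E := ⟨e⟩
  choose! g hg using fun (i : ℕ) (hi : i < n + 1) => (hadj i hi).2
  refine ⟨n, fun i => p.getVert i.val, fun i => if i.val < n + 1 then g i.val else e, ?_, ?_, ?_⟩
  · intro i j hij
    exact Fin.ext (hinj _ _ (by omega) (by omega) hij)
  · intro i j hij
    simp only at hij
    by_cases hi : i.val < n + 1
    · by_cases hj : j.val < n + 1
      · rw [if_pos hi, if_pos hj] at hij
        have h1 := (hg i hi).2
        have h2 := (hg j hj).2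
        rw [hij, h2] at h1
        rcases Sym2.eq_iff.mp h1 with ⟨h3, _⟩ | ⟨h3, h4⟩
        · exact Fin.ext (hinj _ _ (by omega) (by omega) h3.symm)
        · have h5 := hinj _ _ (by omega) (by omega) h3
          have h6 := hinj _ _ (by omega) (by omega) h4
          omega
      · rw [if_pos hi, if_neg hj] at hij
        have := (Finset.mem_erase.mp (hg i hi).1).1
        exact absurd hij this
    · by_cases hj : j.val < n + 1
      · rw [if_neg hi, if_pos hj] at hij
        have := (Finset.mem_erase.mp (hg j hj).1).1
        exact absurd hij.symm this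
      · exact Fin.ext (by omega)
  · intro i
    simp only
    by_cases hi : i.val < n + 1
    · rw [if_pos hi]
      refine ⟨(Finset.mem_erase.mp (hg i hi).1).2, ?_⟩
      have h1 : (i + 1).val = i.val + 1 := by
        rw [Fin.val_add_one_of_lt]
        rw [Fin.lt_def]
        simpa using hi
      rw [h1]
      exact (hg i hi).2
    · rw [if_neg hi]
      refine ⟨he, ?_⟩
      have h0 : i = Fin.last (n + 1) := Fin.ext (by simp; omega)
      have h1 : i + 1 = 0 := by rw [h0]; simp
      rw [h1, h0]
      have h2 : p.getVert (Fin.last (n + 1)).val = a := by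
        have : (Fin.last (n + 1)).val = p.length := by simp [hn]
        rw [this]
        exact p.getVert_length
      rw [h2]
      simpa using hab

lemma forest_iff {ends : E → Sym2 V} (hloop : ∀ e, ¬ (ends e).IsDiag) (F : Finset E) :
    Forest ends F ↔ ¬ HasCycle ends F := by
  constructor
  · intro h h'
    exact not_forest_of_hasCycle h' h
  · intro h
    by_contra h'
    exact h (hasCycle_of_not_forest hloop h')

end Pool.Agent.Lib.MP_d90615_co
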