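import Pool.Agent.Lib.MP_d90615_co.CertD

/-!
Different trees: `N (T + (17/20) X) ≤ N_e N_f`, where `T` counts the forests containing both
edges in different trees and `X` counts the forests containing both edges in the same tree.
-/

namespace Pool.Agent.Lib.MP_d90615_co

open Matrix Finset
open scoped Classical

variable {V E : Type*}

/-- Some end of `e` is joined to some end of `f` by edges of `F`. -/
def Joined (ends : E → Sym2 V) (F : Finset E) (e f : E) : Prop :=
  ∃ x ∈ ends e, ∃ y ∈ ends f, Conn ends F x y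

lemma joined_insert (ends : E → Sym2 V) (F : Finset E) {e f : E} {a b c d : V}
    (he : ends e = s(a, b)) (hf : ends f = s(c, d)) :
    Joined ends (insert e (insert f F)) e f ↔
      (Conn ends F a c ∨ Conn ends F a d ∨ Conn ends F b c ∨ Conn ends F b d) := by
  constructor
  · rintro ⟨x, hx, y, hy, h⟩
    rw [he, Sym2.mem_iff] at hx
    rw [hf, Sym2.mem_iff] at hy
    have h1 : ∃ x', (x' = a ∨ x' = b) ∧ Conn ends (insert f F) x' y := by
      rcases (conn_insert he x y).mp h with h | ⟨_, h⟩ | ⟨_, h⟩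
      · exact ⟨x, hx, h⟩
      · exact ⟨b, Or.inr rfl, h⟩
      · exact ⟨a, Or.inl rfl, h⟩
    obtain ⟨x', hx', h1⟩ := h1
    have h2 : ∃ y', (y' = c ∨ y' = d) ∧ Conn ends F x' y' := by
      rcases (conn_insert hf x' y).mp h1 with h | ⟨h, _⟩ | ⟨h, _⟩
      · exact ⟨y, hy, h⟩
      · exact ⟨c, Or.inl rfl, h⟩
      · exact ⟨d, Or.inr rfl, h⟩
    obtain ⟨y', hy', h2⟩ := h2
    rcases hx' with rfl | rfl <;> rcases hy' with rfl | rfl
    · exact Or.inl h2
    · exact Or.inr (Or.inl h2)
    · exact Or.inr (Or.inr (Or.inl h2))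
    · exact Or.inr (Or.inr (Or.inr h2))
  · have hsub : F ⊆ insert e (insert f F) := fun g hg =>
      Finset.mem_insert_of_mem (Finset.mem_insert_of_mem hg)
    have ma : a ∈ ends e := by rw [he]; exact Sym2.mem_mk_left a b
    have mb : b ∈ ends e := by rw [he]; exact Sym2.mem_mk_right a b
    have mc : c ∈ ends f := by rw [hf]; exact Sym2.mem_mk_left c d
    have md : d ∈ ends f := by rw [hf]; exact Sym2.mem_mk_right c d
    rintro (h | h | h | h)
    · exact ⟨a, ma, c, mc, h.mono hsub⟩
    · exact ⟨a, ma, d, md, h.mono hsub⟩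
    · exact ⟨b, mb, c, mc, h.mono hsub⟩
    · exact ⟨b, mb, d, md, h.mono hsub⟩

lemma sum_T_agg (ends : E → Sym2 V) (S : Finset E) {e f : E} {a b c d : V}
    (he : ends e = s(a, b)) (hf : ends f = s(c, d)) :
    (∑ F ∈ S.powerset with Forest ends F,
        (if ¬ Conn ends F a b ∧ ¬ Conn ends (insert e F) c d ∧
          ¬ Joined ends (insert e (insert f F)) e f then 1 else 0 : ℝ)) =
      gT ends S a b c d := by
  have h := expand ends S a b c d (fun p q s u k l =>
    (1 - p) * (1 - l) * ((1 - q) * (1 - s) * (1 - u) * (1 - k)))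
  have h0 : (∑ F ∈ S.powerset with Forest ends F,
        (if ¬ Conn ends F a b ∧ ¬ Conn ends (insert e F) c d ∧
          ¬ Joined ends (insert e (insert f F)) e f then 1 else 0 : ℝ)) =
      ∑ F ∈ S.powerset with Forest ends F, ((1 - ind (Conn ends F a b)) *
        (1 - ind (Conn ends F c d)) * ((1 - ind (Conn ends F a c)) *
          (1 - ind (Conn ends F a d)) * (1 - ind (Conn ends F b c)) *
          (1 - ind (Conn ends F b d)))) := by
    refine Finset.sum_congr rfl fun F _ => ?_
    have s1 : Conn ends F c a ↔ Conn ends F a c := ⟨Conn.symm, Conn.symm⟩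
    have s2 : Conn ends F c b ↔ Conn ends F b c := ⟨Conn.symm, Conn.symm⟩
    rw [joined_insert ends F he hf, conn_insert he, s1, s2]
    unfold ind
    by_cases k1 : Conn ends F a b <;> by_cases k2 : Conn ends F c d <;>
      by_cases k3 : Conn ends F a c <;> by_cases k4 : Conn ends F b d <;>
      by_cases k5 : Conn ends F b c <;> by_cases k6 : Conn ends F a d <;>
      simp [k1, k2, k3, k4, k5, k6]
  rw [h0, h]
  unfold gT
  ring

lemma sum_X_agg (ends : E → Sym2 V) (S : Finset E) {e f : E} {a b c d : V}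
    (he : ends e = s(a, b)) (hf : ends f = s(c, d)) :
    (∑ F ∈ S.powerset with Forest ends F,
        (if ¬ Conn ends F a b ∧ ¬ Conn ends (insert e F) c d ∧
          Joined ends (insert e (insert f F)) e f then 1 else 0 : ℝ)) =
      gX ends S a b c d := by
  have h1 := sum_ef_agg ends S he c d
  have h2 := sum_T_agg ends S he hf
  have h3 : (∑ F ∈ S.powerset with Forest ends F,
        (if ¬ Conn ends F a b ∧ ¬ Conn ends (insert e F) c d then 1 else 0 : ℝ)) =
      (∑ F ∈ S.powerset with Forest ends F,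
        (if ¬ Conn ends F a b ∧ ¬ Conn ends (insert e F) c d ∧
          ¬ Joined ends (insert e (insert f F)) e f then 1 else 0 : ℝ)) +
      (∑ F ∈ S.powerset with Forest ends F,
        (if ¬ Conn ends F a b ∧ ¬ Conn ends (insert e F) c d ∧
          Joined ends (insert e (insert f F)) e f then 1 else 0 : ℝ)) := by
    rw [← Finset.sum_add_distrib]
    refine Finset.sum_congr rfl fun F _ => ?_
    by_cases k1 : Conn ends F a b <;> by_cases k2 : Conn ends (insert e F) c d <;>
      by_cases k3 : Joined ends (insert e (insert f F)) e f <;> simp [k1, k2, k3]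
  linarith

variable [Fintype V]

lemma core_dt (ends : E → Sym2 V) (S : Finset E) {a b c d : V}
    (hab : a ≠ b) (hac : a ≠ c) (had : a ≠ d) (hbc : b ≠ c) (hbd : b ≠ d) (hcd : c ≠ d) :
    (∑ F ∈ S.powerset with Forest ends F, (1 : ℝ)) *
      (gT ends S a b c d + 17 / 20 * gX ends S a b c d) ≤
      (∑ F ∈ S.powerset with Forest ends F, (if ¬ Conn ends F a b then 1 else 0 : ℝ)) *
      (∑ F ∈ S.powerset with Forest ends F, (if ¬ Conn ends F c d then 1 else 0 : ℝ)) := by
  have hpos : (0 : ℝ) < ∑ F ∈ S.powerset with Forest ends F, (1 : ℝ) := by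
    refine Finset.sum_pos (fun _ _ => one_pos) ⟨∅, ?_⟩
    rw [Finset.mem_filter]
    refine ⟨Finset.empty_mem_powerset S, ?_⟩
    intro g hg
    simp at hg
  have hc := certD _ _ _ _ _ _ _ _ _ (gT_nonneg ends S a b c d) (gP1_nonneg ends S a b c d)
    (gQ1_nonneg ends S a b c d) (gZ1_nonneg ends S a b c d) (gX_nonneg ends S a b c d)
    (gP2_nonneg ends S a b c d) (gQ2_nonneg ends S a b c d) (gZ2_nonneg ends S a b c d)
    (gY_nonneg ends S a b c d) (K1_agg ends S hab hac had hbc hbd hcd)
    (K2_agg ends S hab hac had hbc hbd hcd) (M1_agg ends S hab hac had hbc hbd hcd)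
    (M2_agg ends S hab hac had hbc hbd hcd) (M3_agg ends S hab hac had hbc hbd hcd)
    (rayD_nonneg ends S a b c d _ _) (rayD_nonneg ends S a b c d _ _)
    (rayD_nonneg ends S a b c d _ _) (rayD_nonneg ends S a b c d _ _)
  rw [sum_e_agg ends S a b c d, sum_f_agg ends S a b c d]
  rw [sum_one_agg ends S a b c d] at hpos ⊢
  have h := nonneg_of_mul_nonneg_right hc hpos
  linarith

/-- The bound in terms of the forests of `S ∪ {e, f}`. -/
theorem different_trees (ends : E → Sym2 V) (hloop : ∀ e, ¬ (ends e).IsDiag)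
    (S : Finset E) {e f : E} (he : e ∉ insert f S) (hf : f ∉ S) :
    ((∑ F ∈ (insert e (insert f S)).powerset,
        (if Forest ends F ∧ e ∈ F ∧ f ∈ F ∧ ¬ Joined ends F e f then 1 else 0 : ℝ)) +
      17 / 20 * (∑ F ∈ (insert e (insert f S)).powerset,
        (if Forest ends F ∧ e ∈ F ∧ f ∈ F ∧ Joined ends F e f then 1 else 0 : ℝ))) *
      (∑ F ∈ (insert e (insert f S)).powerset, (if Forest ends F then 1 else 0 : ℝ)) ≤
    (∑ F ∈ (insert e (insert f S)).powerset,
        (if Forest ends F ∧ e ∈ F then 1 else 0 : ℝ)) *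
      (∑ F ∈ (insert e (insert f S)).powerset,
        (if Forest ends F ∧ f ∈ F then 1 else 0 : ℝ)) := by
  obtain ⟨a, b, hab⟩ : ∃ a b, ends e = s(a, b) := by
    induction h : ends e using Sym2.ind with
    | _ u v => exact ⟨u, v, rfl⟩
  obtain ⟨c, d, hcd⟩ : ∃ c d, ends f = s(c, d) := by
    induction h : ends f using Sym2.ind with
    | _ u v => exact ⟨u, v, rfl⟩
  have nab : a ≠ b := by
    intro h
    apply hloop e
    rw [hab, h]
    exact Sym2.mk_isDiag_iff.mpr rfl
  have ncd : c ≠ d := by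
    intro h
    apply hloop f
    rw [hcd, h]
    exact Sym2.mk_isDiag_iff.mpr rfl
  have hadj : ∀ {x y z : V}, ends e = s(x, y) → ends f = s(x, z) →
      ((∑ F ∈ (insert e (insert f S)).powerset,
        (if Forest ends F ∧ e ∈ F ∧ f ∈ F ∧ ¬ Joined ends F e f then 1 else 0 : ℝ)) +
      17 / 20 * (∑ F ∈ (insert e (insert f S)).powerset,
        (if Forest ends F ∧ e ∈ F ∧ f ∈ F ∧ Joined ends F e f then 1 else 0 : ℝ))) *
      (∑ F ∈ (insert e (insert f S)).powerset, (if Forest ends F then 1 else 0 : ℝ)) ≤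
    (∑ F ∈ (insert e (insert f S)).powerset,
        (if Forest ends F ∧ e ∈ F then 1 else 0 : ℝ)) *
      (∑ F ∈ (insert e (insert f S)).powerset,
        (if Forest ends F ∧ f ∈ F then 1 else 0 : ℝ)) := by
    intro x y z h1 h2
    refine le_trans ?_ (adjacent ends hloop S he hf h1 h2)
    have hJ : ∀ F : Finset E, Joined ends F e f := fun F =>
      ⟨x, by rw [h1]; exact Sym2.mem_mk_left x y, x, by rw [h2]; exact Sym2.mem_mk_left x z,
        Conn.refl _ _ _⟩
    have z1 : (∑ F ∈ (insert e (insert f S)).powerset,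
        (if Forest ends F ∧ e ∈ F ∧ f ∈ F ∧ ¬ Joined ends F e f then 1 else 0 : ℝ)) = 0 := by
      refine Finset.sum_eq_zero fun F _ => ?_
      rw [if_neg]
      rintro ⟨_, _, _, h⟩
      exact h (hJ F)
    have z2 : (∑ F ∈ (insert e (insert f S)).powerset,
        (if Forest ends F ∧ e ∈ F ∧ f ∈ F ∧ Joined ends F e f then 1 else 0 : ℝ)) =
        ∑ F ∈ (insert e (insert f S)).powerset,
        (if Forest ends F ∧ e ∈ F ∧ f ∈ F then 1 else 0 : ℝ) := by
      refine Finset.sum_congr rfl fun F _ => ?_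
      simp only [hJ F, and_true]
    rw [z1, z2, zero_add]
    have p1 : 0 ≤ ∑ F ∈ (insert e (insert f S)).powerset,
        (if Forest ends F ∧ e ∈ F ∧ f ∈ F then 1 else 0 : ℝ) :=
      Finset.sum_nonneg fun F _ => by split_ifs <;> norm_num
    have p2 : 0 ≤ ∑ F ∈ (insert e (insert f S)).powerset,
        (if Forest ends F then 1 else 0 : ℝ) :=
      Finset.sum_nonneg fun F _ => by split_ifs <;> norm_num
    have := mul_nonneg p1 p2
    linarith
  have hba : ends e = s(b, a) := by rw [hab, Sym2.eq_swap]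
  have hdc : ends f = s(d, c) := by rw [hcd, Sym2.eq_swap]
  by_cases k1 : a = c
  · exact hadj hab (k1 ▸ hcd)
  by_cases k2 : a = d
  · exact hadj hab (k2 ▸ hdc)
  by_cases k3 : b = c
  · exact hadj hba (k3 ▸ hcd)
  by_cases k4 : b = d
  · exact hadj hba (k4 ▸ hdc)
  have hcore := core_dt ends S nab k1 k2 k3 k4 ncd
  have hef : e ≠ f := fun h => he (h ▸ Finset.mem_insert_self _ _)
  have heS : e ∉ S := fun h => he (Finset.mem_insert_of_mem h)
  have hfor : ∀ F ∈ S.powerset,
      (Forest ends (insert f F) ↔ Forest ends F ∧ ¬ Conn ends F c d) ∧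
      (Forest ends (insert e F) ↔ Forest ends F ∧ ¬ Conn ends F a b) ∧
      (Forest ends (insert e (insert f F)) ↔
        Forest ends F ∧ ¬ Conn ends F a b ∧ ¬ Conn ends (insert e F) c d) ∧
      e ∉ F ∧ f ∉ F := by
    intro F hF
    have heF : e ∉ F := fun h => heS (Finset.mem_powerset.mp hF h)
    have hfF : f ∉ F := fun h => hf (Finset.mem_powerset.mp hF h)
    have hfeF : f ∉ insert e F := by
      rw [Finset.mem_insert]
      rintro (h | h)
      · exact hef h.symm
      · exact hfF h
    refine ⟨forest_insert hcd hfF, forest_insert hab heF, ?_, heF, hfF⟩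
    rw [Finset.insert_comm, forest_insert hcd hfeF, forest_insert hab heF, and_assoc]
  have s0 := sum_ef_agg ends S hab c d
  have s1 := sum_T_agg ends S hab hcd
  have s2 := sum_X_agg ends S hab hcd
  set N : ℝ := ∑ F ∈ S.powerset with Forest ends F, (1 : ℝ) with hN
  set Ne : ℝ := ∑ F ∈ S.powerset with Forest ends F,
    (if ¬ Conn ends F a b then 1 else 0 : ℝ) with hNe
  set Nf : ℝ := ∑ F ∈ S.powerset with Forest ends F,
    (if ¬ Conn ends F c d then 1 else 0 : ℝ) with hNf
  set Nef : ℝ := ∑ F ∈ S.powerset with Forest ends F,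
    (if ¬ Conn ends F a b ∧ ¬ Conn ends (insert e F) c d then 1 else 0 : ℝ) with hNef
  have t0 : (∑ F ∈ (insert e (insert f S)).powerset,
      (if Forest ends F then 1 else 0 : ℝ)) = N + Nf + Ne + Nef := by
    rw [sum_two he hf, hN, hNe, hNf, hNef, Finset.sum_filter, Finset.sum_filter,
      Finset.sum_filter, Finset.sum_filter, ← Finset.sum_add_distrib, ← Finset.sum_add_distrib,
      ← Finset.sum_add_distrib]
    refine Finset.sum_congr rfl fun F hF => ?_
    obtain ⟨h1, h2, h3, h4, h5⟩ := hfor F hF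
    simp only [h1, h2, h3]
    by_cases h : Forest ends F <;> simp [h]
  have t1 : (∑ F ∈ (insert e (insert f S)).powerset,
      (if Forest ends F ∧ e ∈ F then 1 else 0 : ℝ)) = Ne + Nef := by
    rw [sum_two he hf, hNe, hNef, Finset.sum_filter, Finset.sum_filter,
      ← Finset.sum_add_distrib]
    refine Finset.sum_congr rfl fun F hF => ?_
    obtain ⟨h1, h2, h3, h4, h5⟩ := hfor F hF
    simp only [h1, h2, h3]
    by_cases h : Forest ends F <;> simp [h, h4, hef]
  have t2 : (∑ F ∈ (insert e (insert f S)).powerset,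
      (if Forest ends F ∧ f ∈ F then 1 else 0 : ℝ)) = Nf + Nef := by
    rw [sum_two he hf, hNf, hNef, Finset.sum_filter, Finset.sum_filter,
      ← Finset.sum_add_distrib]
    refine Finset.sum_congr rfl fun F hF => ?_
    obtain ⟨h1, h2, h3, h4, h5⟩ := hfor F hF
    simp only [h1, h2, h3]
    by_cases h : Forest ends F <;> simp [h, h5, hef.symm]
  have t3 : (∑ F ∈ (insert e (insert f S)).powerset,
      (if Forest ends F ∧ e ∈ F ∧ f ∈ F ∧ ¬ Joined ends F e f then 1 else 0 : ℝ)) =
      ∑ F ∈ S.powerset with Forest ends F,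
        (if ¬ Conn ends F a b ∧ ¬ Conn ends (insert e F) c d ∧
          ¬ Joined ends (insert e (insert f F)) e f then 1 else 0 : ℝ) := by
    rw [sum_two he hf, Finset.sum_filter]
    refine Finset.sum_congr rfl fun F hF => ?_
    obtain ⟨h1, h2, h3, h4, h5⟩ := hfor F hF
    simp only [h1, h2, h3]
    by_cases h : Forest ends F <;> simp [h, h4, h5, hef, hef.symm, and_assoc]
  have t4 : (∑ F ∈ (insert e (insert f S)).powerset,
      (if Forest ends F ∧ e ∈ F ∧ f ∈ F ∧ Joined ends F e f then 1 else 0 : ℝ)) =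
      ∑ F ∈ S.powerset with Forest ends F,
        (if ¬ Conn ends F a b ∧ ¬ Conn ends (insert e F) c d ∧
          Joined ends (insert e (insert f F)) e f then 1 else 0 : ℝ) := by
    rw [sum_two he hf, Finset.sum_filter]
    refine Finset.sum_congr rfl fun F hF => ?_
    obtain ⟨h1, h2, h3, h4, h5⟩ := hfor F hF
    simp only [h1, h2, h3]
    by_cases h : Forest ends F <;> simp [h, h4, h5, hef, hef.symm, and_assoc]
  rw [t0, t1, t2, t3, t4, s1, s2]
  have p1 : 0 ≤ Ne := Finset.sum_nonneg fun F _ => by split_ifs <;> norm_num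
  have p2 : 0 ≤ Nf := Finset.sum_nonneg fun F _ => by split_ifs <;> norm_num
  have p3 : 0 ≤ Nef := Finset.sum_nonneg fun F _ => by split_ifs <;> norm_num
  have p4 : 0 ≤ gX ends S a b c d := gX_nonneg ends S a b c d
  have h1 : (gT ends S a b c d + 17 / 20 * gX ends S a b c d) * (Nf + Ne + Nef) ≤
      Nef * (Nf + Ne + Nef) := by
    refine mul_le_mul_of_nonneg_right ?_ (by positivity)
    linarith
  linarith

end Pool.Agent.Lib.MP_d90615_co
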