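import Pool.Agent.Lib.MP_d90615_co.Agg
import Pool.Agent.Lib.MP_d90615_co.Mg.G033

/-!
The constant `11/10`: `10 N N_ef ≤ 11 N_e N_f` for any two edges `e`, `f`.
-/

namespace Pool.Agent.Lib.MP_d90615_co

open Matrix Finset
open scoped Classical

variable {V E : Type*}

lemma sum_one_agg (ends : E → Sym2 V) (S : Finset E) (a b c d : V) :
    (∑ F ∈ S.powerset with Forest ends F, (1 : ℝ)) =
      gT ends S a b c d + gP1 ends S a b c d + gQ1 ends S a b c d + gZ1 ends S a b c d
        + gX ends S a b c d + gP2 ends S a b c d + gQ2 ends S a b c d + gZ2 ends S a b c d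
        + gY ends S a b c d := by
  have h := expand ends S a b c d (fun _ _ _ _ _ _ => 1)
  rw [h]
  unfold gT gP1 gQ1 gZ1 gX gP2 gQ2 gZ2 gY
  ring

lemma sum_e_agg (ends : E → Sym2 V) (S : Finset E) (a b c d : V) :
    (∑ F ∈ S.powerset with Forest ends F, (if ¬ Conn ends F a b then 1 else 0 : ℝ)) =
      gT ends S a b c d + gX ends S a b c d + gY ends S a b c d + gQ1 ends S a b c d
        + gQ2 ends S a b c d := by
  have h := expand ends S a b c d (fun p _ _ _ _ _ => 1 - p)
  have h0 : (∑ F ∈ S.powerset with Forest ends F, (if ¬ Conn ends F a b then 1 else 0 : ℝ)) =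
      ∑ F ∈ S.powerset with Forest ends F, (1 - ind (Conn ends F a b)) := by
    refine Finset.sum_congr rfl fun F _ => ?_
    unfold ind
    split_ifs <;> norm_num
  rw [h0, h]
  unfold gT gQ1 gX gQ2 gY
  ring

lemma sum_f_agg (ends : E → Sym2 V) (S : Finset E) (a b c d : V) :
    (∑ F ∈ S.powerset with Forest ends F, (if ¬ Conn ends F c d then 1 else 0 : ℝ)) =
      gT ends S a b c d + gX ends S a b c d + gY ends S a b c d + gP1 ends S a b c d
        + gP2 ends S a b c d := by
  have h := expand ends S a b c d (fun _ _ _ _ _ l => 1 - l)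
  have h0 : (∑ F ∈ S.powerset with Forest ends F, (if ¬ Conn ends F c d then 1 else 0 : ℝ)) =
      ∑ F ∈ S.powerset with Forest ends F, (1 - ind (Conn ends F c d)) := by
    refine Finset.sum_congr rfl fun F _ => ?_
    unfold ind
    split_ifs <;> norm_num
  rw [h0, h]
  unfold gT gP1 gX gP2 gY
  ring

lemma sum_ef_agg (ends : E → Sym2 V) (S : Finset E) {e : E} {a b : V}
    (he : ends e = s(a, b)) (c d : V) :
    (∑ F ∈ S.powerset with Forest ends F,
        (if ¬ Conn ends F a b ∧ ¬ Conn ends (insert e F) c d then 1 else 0 : ℝ)) =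
      gT ends S a b c d + gX ends S a b c d := by
  have h := expand ends S a b c d (fun p q s u k l => (1 - p) * ((1 - l) * (1 - q * k) * (1 - u * s)))
  have h0 : (∑ F ∈ S.powerset with Forest ends F,
        (if ¬ Conn ends F a b ∧ ¬ Conn ends (insert e F) c d then 1 else 0 : ℝ)) =
      ∑ F ∈ S.powerset with Forest ends F, ((1 - ind (Conn ends F a b)) *
        ((1 - ind (Conn ends F c d)) * (1 - ind (Conn ends F a c) * ind (Conn ends F b d)) *
          (1 - ind (Conn ends F b c) * ind (Conn ends F a d)))) := by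
    refine Finset.sum_congr rfl fun F _ => ?_
    have h1 : Conn ends (insert e F) c d ↔ (Conn ends F c d ∨
        (Conn ends F a c ∧ Conn ends F b d) ∨ (Conn ends F b c ∧ Conn ends F a d)) := by
      rw [conn_insert he]
      constructor
      · rintro (h | ⟨h1, h2⟩ | ⟨h1, h2⟩)
        · exact Or.inl h
        · exact Or.inr (Or.inl ⟨h1.symm, h2⟩)
        · exact Or.inr (Or.inr ⟨h1.symm, h2⟩)
      · rintro (h | ⟨h1, h2⟩ | ⟨h1, h2⟩)
        · exact Or.inl h
        · exact Or.inr (Or.inl ⟨h1.symm, h2⟩)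
        · exact Or.inr (Or.inr ⟨h1.symm, h2⟩)
    rw [h1]
    unfold ind
    by_cases k1 : Conn ends F a b <;> by_cases k2 : Conn ends F c d <;>
      by_cases k3 : Conn ends F a c <;> by_cases k4 : Conn ends F b d <;>
      by_cases k5 : Conn ends F b c <;> by_cases k6 : Conn ends F a d <;>
      simp [k1, k2, k3, k4, k5, k6]
  rw [h0, h]
  unfold gT gX
  ring

variable [Fintype V]

lemma core_distinct (ends : E → Sym2 V) (S : Finset E) {e : E} {a b : V}
    (he : ends e = s(a, b)) {c d : V} (hab : a ≠ b) (hac : a ≠ c) (had : a ≠ d) (hbc : b ≠ c)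
    (hbd : b ≠ d) (hcd : c ≠ d) :
    (∑ F ∈ S.powerset with Forest ends F, (1 : ℝ)) *
      (∑ F ∈ S.powerset with Forest ends F,
        (if ¬ Conn ends F a b ∧ ¬ Conn ends (insert e F) c d then 1 else 0 : ℝ)) ≤
      11 / 10 * (∑ F ∈ S.powerset with Forest ends F, (if ¬ Conn ends F a b then 1 else 0 : ℝ)) *
      (∑ F ∈ S.powerset with Forest ends F, (if ¬ Conn ends F c d then 1 else 0 : ℝ)) := by
  have hpos : (0 : ℝ) < ∑ F ∈ S.powerset with Forest ends F, (1 : ℝ) := by
    refine Finset.sum_pos (fun _ _ => one_pos) ⟨∅, ?_⟩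
    rw [Finset.mem_filter]
    refine ⟨Finset.empty_mem_powerset S, ?_⟩
    intro g hg
    simp at hg
  have hc := cert9 _ _ _ _ _ _ _ _ _ (gT_nonneg ends S a b c d) (gP1_nonneg ends S a b c d)
    (gQ1_nonneg ends S a b c d) (gZ1_nonneg ends S a b c d) (gX_nonneg ends S a b c d)
    (gP2_nonneg ends S a b c d) (gQ2_nonneg ends S a b c d) (gZ2_nonneg ends S a b c d)
    (gY_nonneg ends S a b c d) (K1_agg ends S hab hac had hbc hbd hcd)
    (K2_agg ends S hab hac had hbc hbd hcd) (M1_agg ends S hab hac had hbc hbd hcd)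
    (M2_agg ends S hab hac had hbc hbd hcd) (M3_agg ends S hab hac had hbc hbd hcd)
    (ray9_nonneg ends S a b c d _ _) (ray9_nonneg ends S a b c d _ _)
  rw [sum_e_agg ends S a b c d, sum_f_agg ends S a b c d, sum_ef_agg ends S he c d]
  rw [sum_one_agg ends S a b c d] at hpos ⊢
  have h := nonneg_of_mul_nonneg_right hc hpos
  linarith

/-- The bound in terms of the forests of `S ∪ {e, f}`. -/
theorem eleven_tenths (ends : E → Sym2 V) (hloop : ∀ e, ¬ (ends e).IsDiag)
    (S : Finset E) {e f : E} (he : e ∉ insert f S) (hf : f ∉ S) :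
    (∑ F ∈ (insert e (insert f S)).powerset,
        (if Forest ends F ∧ e ∈ F ∧ f ∈ F then 1 else 0 : ℝ)) *
      (∑ F ∈ (insert e (insert f S)).powerset, (if Forest ends F then 1 else 0 : ℝ)) ≤
    11 / 10 * (∑ F ∈ (insert e (insert f S)).powerset,
        (if Forest ends F ∧ e ∈ F then 1 else 0 : ℝ)) *
      (∑ F ∈ (insert e (insert f S)).powerset,
        (if Forest ends F ∧ f ∈ F then 1 else 0 : ℝ)) := by
  obtain ⟨a, b, hab⟩ : ∃ a b, ends e = s(a, b) := by
    induction h : ends e using Sym2.ind with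
    | _ u v => exact ⟨u, v, rfl⟩
  obtain ⟨c, d, hcd⟩ : ∃ c d, ends f = s(c, d) := by
    induction h : ends f using Sym2.ind with
    | _ u v => exact ⟨u, v, rfl⟩
  have nab : a ≠ b := by
    intro h
    apply hloop e
    rw [hab, h]
    exact Sym2.mk_isDiag_iff.mpr rfl
  have ncd : c ≠ d := by
    intro h
    apply hloop f
    rw [hcd, h]
    exact Sym2.mk_isDiag_iff.mpr rfl
  have hadj : ∀ {x y z : V}, ends e = s(x, y) → ends f = s(x, z) →
      (∑ F ∈ (insert e (insert f S)).powerset,
        (if Forest ends F ∧ e ∈ F ∧ f ∈ F then 1 else 0 : ℝ)) *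
      (∑ F ∈ (insert e (insert f S)).powerset, (if Forest ends F then 1 else 0 : ℝ)) ≤
    11 / 10 * (∑ F ∈ (insert e (insert f S)).powerset,
        (if Forest ends F ∧ e ∈ F then 1 else 0 : ℝ)) *
      (∑ F ∈ (insert e (insert f S)).powerset,
        (if Forest ends F ∧ f ∈ F then 1 else 0 : ℝ)) := by
    intro x y z h1 h2
    refine (adjacent ends hloop S he hf h1 h2).trans ?_
    have p1 : 0 ≤ ∑ F ∈ (insert e (insert f S)).powerset,
        (if Forest ends F ∧ e ∈ F then 1 else 0 : ℝ) :=
      Finset.sum_nonneg fun F _ => by split_ifs <;> norm_num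
    have p2 : 0 ≤ ∑ F ∈ (insert e (insert f S)).powerset,
        (if Forest ends F ∧ f ∈ F then 1 else 0 : ℝ) :=
      Finset.sum_nonneg fun F _ => by split_ifs <;> norm_num
    have := mul_nonneg p1 p2
    linarith
  have hba : ends e = s(b, a) := by rw [hab, Sym2.eq_swap]
  have hdc : ends f = s(d, c) := by rw [hcd, Sym2.eq_swap]
  by_cases k1 : a = c
  · exact hadj hab (k1 ▸ hcd)
  by_cases k2 : a = d
  · exact hadj hab (k2 ▸ hdc)
  by_cases k3 : b = c
  · exact hadj hba (k3 ▸ hcd)
  by_cases k4 : b = d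
  · exact hadj hba (k4 ▸ hdc)
  exact two_by_two ends S he hf hab hcd (11 / 10) (by norm_num)
    (core_distinct ends S hab nab k1 k2 k3 k4 ncd)

end Pool.Agent.Lib.MP_d90615_co
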