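import Pool.Agent.Lib.MP_d90615_co.Mg.G028
import Pool.Agent.Lib.MP_d90615_co.Mg.G033

/-!
The gap in the negative correlation of two edges with a common end.
-/

namespace Pool.Agent.Lib.MP_d90615_co

open Matrix Finset
open scoped Classical

variable {V E : Type*}

lemma c2_nonneg (ends : E → Sym2 V) (S : Finset E) (a b : V) : 0 ≤ c2 ends S a b :=
  Finset.sum_nonneg fun _ _ => ind_nonneg _

lemma c3_nonneg (ends : E → Sym2 V) (S : Finset E) (a b c : V) : 0 ≤ c3 ends S a b c :=
  Finset.sum_nonneg fun _ _ => mul_nonneg (ind_nonneg _) (ind_nonneg _)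

lemma cN_nonneg (ends : E → Sym2 V) (S : Finset E) : 0 ≤ cN ends S :=
  Finset.sum_nonneg fun _ _ => zero_le_one

/-- Real algebra: the gap. -/
lemma gap_alg (N A B C T : ℝ) (hN : 0 ≤ N) (hA : 0 ≤ A) (hB : 0 ≤ B) (hC : 0 ≤ C) (hT : 0 ≤ T)
    (h : N * T ^ 2 ≤ A * B * C) :
    N * (N - A - B - C + 2 * T) + (Real.sqrt (A * B) - Real.sqrt (N * C)) ^ 2 ≤
      (N - A) * (N - B) := by
  have h1 : Real.sqrt (A * B) ^ 2 = A * B := Real.sq_sqrt (mul_nonneg hA hB)
  have h2 : Real.sqrt (N * C) ^ 2 = N * C := Real.sq_sqrt (mul_nonneg hN hC)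
  have h3 : N * T ≤ Real.sqrt (A * B) * Real.sqrt (N * C) := by
    rw [← Real.sqrt_mul (mul_nonneg hA hB)]
    refine Real.le_sqrt_of_sq_le ?_
    have h4 := mul_le_mul_of_nonneg_left h hN
    nlinarith
  nlinarith

variable [Fintype V]

/-- Two edges `e = ca`, `f = cb`: the gap in the correlation inequality. -/
theorem adjacent_gap (ends : E → Sym2 V) (hloop : ∀ e, ¬ (ends e).IsDiag)
    (S : Finset E) {e f : E} (he : e ∉ insert f S) (hf : f ∉ S) {a b c : V}
    (hca : ends e = s(c, a)) (hcb : ends f = s(c, b)) :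
    (∑ F ∈ (insert e (insert f S)).powerset,
        (if Forest ends F ∧ e ∈ F ∧ f ∈ F then 1 else 0 : ℝ)) *
      (∑ F ∈ (insert e (insert f S)).powerset, (if Forest ends F then 1 else 0 : ℝ))
      + (Real.sqrt ((∑ F ∈ (insert e (insert f S)).powerset,
            (if Forest ends F ∧ e ∉ F ∧ f ∉ F ∧ Conn ends F c a then 1 else 0 : ℝ)) *
          (∑ F ∈ (insert e (insert f S)).powerset,
            (if Forest ends F ∧ e ∉ F ∧ f ∉ F ∧ Conn ends F c b then 1 else 0 : ℝ)))
        - Real.sqrt ((∑ F ∈ (insert e (insert f S)).powerset,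
            (if Forest ends F ∧ e ∉ F ∧ f ∉ F then 1 else 0 : ℝ)) *
          (∑ F ∈ (insert e (insert f S)).powerset,
            (if Forest ends F ∧ e ∉ F ∧ f ∉ F ∧ Conn ends F a b then 1 else 0 : ℝ)))) ^ 2 ≤
    (∑ F ∈ (insert e (insert f S)).powerset,
        (if Forest ends F ∧ e ∈ F then 1 else 0 : ℝ)) *
      (∑ F ∈ (insert e (insert f S)).powerset,
        (if Forest ends F ∧ f ∈ F then 1 else 0 : ℝ)) := by
  have hef : e ≠ f := fun h => he (h ▸ Finset.mem_insert_self _ _)
  have heS : e ∉ S := fun h => he (Finset.mem_insert_of_mem h)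
  have hac : a ≠ c := by
    intro h
    apply hloop e
    rw [hca, h]
    simp
  have hbc : b ≠ c := by
    intro h
    apply hloop f
    rw [hcb, h]
    simp
  have hfor : ∀ F ∈ S.powerset,
      (Forest ends (insert f F) ↔ Forest ends F ∧ ¬ Conn ends F c b) ∧
      (Forest ends (insert e F) ↔ Forest ends F ∧ ¬ Conn ends F c a) ∧
      (Forest ends (insert e (insert f F)) ↔
        Forest ends F ∧ ¬ Conn ends F c a ∧ ¬ Conn ends F c b ∧ ¬ Conn ends F a b) ∧
      e ∉ F ∧ f ∉ F := by
    intro F hF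
    have heF : e ∉ F := fun h => heS (Finset.mem_powerset.mp hF h)
    have hfF : f ∉ F := fun h => hf (Finset.mem_powerset.mp hF h)
    have hfeF : f ∉ insert e F := by
      rw [Finset.mem_insert]
      rintro (h | h)
      · exact hef h.symm
      · exact hfF h
    refine ⟨forest_insert hcb hfF, forest_insert hca heF, ?_, heF, hfF⟩
    rw [Finset.insert_comm, forest_insert hcb hfeF, forest_insert hca heF, and_assoc]
    refine and_congr_right fun _ => ?_
    rw [conn_insert hca]
    constructor
    · rintro ⟨h1, h2⟩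
      refine ⟨h1, fun h => h2 (Or.inl h), fun h => h2 (Or.inr (Or.inl ⟨Conn.refl _ _ _, h⟩))⟩
    · rintro ⟨h1, h2, h3⟩
      refine ⟨h1, ?_⟩
      rintro (h | ⟨_, h⟩ | ⟨h, _⟩)
      · exact h2 h
      · exact h3 h
      · exact h1 h
  set N := cN ends S with hN
  set A := c2 ends S c a with hA
  set B := c2 ends S c b with hB
  set C := c2 ends S a b with hC
  set Nef : ℝ := ∑ F ∈ S.powerset with Forest ends F,
    (if ¬ Conn ends F c a ∧ ¬ Conn ends F c b ∧ ¬ Conn ends F a b then 1 else 0 : ℝ) with hNef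
  have tN : (∑ F ∈ (insert e (insert f S)).powerset,
      (if Forest ends F ∧ e ∉ F ∧ f ∉ F then 1 else 0 : ℝ)) = N := by
    rw [sum_two he hf, hN, cN, Finset.sum_filter]
    refine Finset.sum_congr rfl fun F hF => ?_
    obtain ⟨h1, h2, h3, h4, h5⟩ := hfor F hF
    by_cases h : Forest ends F <;> simp [h, h4, h5]
  have tC : ∀ u v : V, (∑ F ∈ (insert e (insert f S)).powerset,
      (if Forest ends F ∧ e ∉ F ∧ f ∉ F ∧ Conn ends F u v then 1 else 0 : ℝ)) =
      c2 ends S u v := by
    intro u v
    rw [sum_two he hf, c2, Finset.sum_filter]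
    refine Finset.sum_congr rfl fun F hF => ?_
    obtain ⟨h1, h2, h3, h4, h5⟩ := hfor F hF
    by_cases h : Forest ends F <;> by_cases h' : Conn ends F u v <;> simp [h, h', h4, h5, ind]
  have t0 : (∑ F ∈ (insert e (insert f S)).powerset,
      (if Forest ends F then 1 else 0 : ℝ)) = N + (N - B) + (N - A) + Nef := by
    rw [sum_two he hf, hN, hA, hB, hNef, cN, c2, c2, ← Finset.sum_sub_distrib,
      ← Finset.sum_sub_distrib, ← Finset.sum_add_distrib, ← Finset.sum_add_distrib,
      ← Finset.sum_add_distrib, Finset.sum_filter]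
    refine Finset.sum_congr rfl fun F hF => ?_
    obtain ⟨h1, h2, h3, h4, h5⟩ := hfor F hF
    simp only [h1, h2, h3]
    by_cases h : Forest ends F <;> by_cases h' : Conn ends F c a <;>
      by_cases h'' : Conn ends F c b <;> simp [h, h', h'', ind]
  have t1 : (∑ F ∈ (insert e (insert f S)).powerset,
      (if Forest ends F ∧ e ∈ F then 1 else 0 : ℝ)) = (N - A) + Nef := by
    rw [sum_two he hf, hN, hA, hNef, cN, c2, ← Finset.sum_sub_distrib,
      ← Finset.sum_add_distrib, Finset.sum_filter]
    refine Finset.sum_congr rfl fun F hF => ?_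
    obtain ⟨h1, h2, h3, h4, h5⟩ := hfor F hF
    simp only [h1, h2, h3]
    by_cases h : Forest ends F <;> by_cases h' : Conn ends F c a <;>
      simp [h, h', h4, hef, ind]
  have t2 : (∑ F ∈ (insert e (insert f S)).powerset,
      (if Forest ends F ∧ f ∈ F then 1 else 0 : ℝ)) = (N - B) + Nef := by
    rw [sum_two he hf, hN, hB, hNef, cN, c2, ← Finset.sum_sub_distrib,
      ← Finset.sum_add_distrib, Finset.sum_filter]
    refine Finset.sum_congr rfl fun F hF => ?_
    obtain ⟨h1, h2, h3, h4, h5⟩ := hfor F hF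
    simp only [h1, h2, h3]
    by_cases h : Forest ends F <;> by_cases h' : Conn ends F c b <;>
      simp [h, h', h5, hef.symm, ind]
  have t3 : (∑ F ∈ (insert e (insert f S)).powerset,
      (if Forest ends F ∧ e ∈ F ∧ f ∈ F then 1 else 0 : ℝ)) = Nef := by
    rw [sum_two he hf, hNef, Finset.sum_filter]
    refine Finset.sum_congr rfl fun F hF => ?_
    obtain ⟨h1, h2, h3, h4, h5⟩ := hfor F hF
    simp only [h1, h2, h3]
    by_cases h : Forest ends F <;> simp [h, h4, h5, hef, hef.symm]
  rw [t0, t1, t2, t3, tN, tC, tC, tC]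
  have hcore : N * Nef + (Real.sqrt (A * B) - Real.sqrt (N * C)) ^ 2 ≤ (N - A) * (N - B) := by
    by_cases hab : a = b
    · have e1 : Nef = 0 := by
        rw [hNef]
        refine Finset.sum_eq_zero fun F _ => if_neg ?_
        rintro ⟨_, _, h⟩
        exact h (hab ▸ Conn.refl _ _ _)
      have e2 : C = N := by
        rw [hC, hN, ← hab, c2, cN]
        exact Finset.sum_congr rfl fun F _ => ind_pos (Conn.refl _ _ _)
      have e3 : B = A := by
        rw [hA, hB, hab]
      rw [e1, e2, e3, Real.sqrt_mul_self (c2_nonneg _ _ _ _), Real.sqrt_mul_self (cN_nonneg _ _)]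
      nlinarith
    · have e1 : Nef = N - A - B - C + 2 * c3 ends S a b c := by
        rw [hNef, hN, hA, hB, hC, cN, c2, c2, c2, c3, Finset.mul_sum, ← Finset.sum_sub_distrib,
          ← Finset.sum_sub_distrib, ← Finset.sum_sub_distrib, ← Finset.sum_add_distrib]
        refine Finset.sum_congr rfl fun F _ => ?_
        have n1 : Conn ends F a b → Conn ends F b c → Conn ends F c a := fun h h' =>
          (h.trans h').symm
        have n2 : Conn ends F b c → Conn ends F c a → Conn ends F a b := fun h h' =>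
          (h.trans h').symm
        have n3 : Conn ends F a b → Conn ends F c a → Conn ends F b c := fun h h' =>
          (h'.trans h).symm
        have s1 : Conn ends F c b ↔ Conn ends F b c := ⟨Conn.symm, Conn.symm⟩
        rw [s1]
        unfold ind
        by_cases h1 : Conn ends F a b <;> by_cases h2 : Conn ends F b c <;>
          by_cases h3 : Conn ends F c a <;> simp [h1, h2, h3] at n1 n2 n3 ⊢ <;> norm_num
      rw [e1]
      refine gap_alg N A B C _ (cN_nonneg _ _) (c2_nonneg _ _ _ _) (c2_nonneg _ _ _ _)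
        (c2_nonneg _ _ _ _) (c3_nonneg _ _ _ _ _) ?_
      have h3 := three_point ends S (a := a) (b := b) (c := c) hab hbc hac.symm
      rw [c2_comm ends S b c] at h3
      nlinarith
  nlinarith

end Pool.Agent.Lib.MP_d90615_co
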